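import Mathlib

/-!
Moments of the number of the divisors in a set of bounded integers, for the integers of an interval at an
arbitrary position in a residue class.
-/

set_option autoImplicit false

open Finset

namespace Pool.Agent.Helper51.UV

/-- the divisor sums -/
noncomputable def HH (R j : ℕ) : ℝ := ∑ d ∈ Icc 1 R, ((d.divisors.card : ℝ) ^ j) / d

theorem HH_nn (R j : ℕ) : 0 ≤ HH R j := sum_nonneg fun _ _ => by positivity

theorem tau_mul (a b : ℕ) : ((a * b).divisors.card : ℝ) ≤ (a.divisors.card : ℝ) * b.divisors.card := by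
  classical
  have h : (a * b).divisors ⊆ (a.divisors ×ˢ b.divisors).image (fun w => w.1 * w.2) := by
    intro d hd
    rw [Nat.mem_divisors] at hd
    obtain ⟨hd1, hd2⟩ := hd
    have ha : a ≠ 0 := left_ne_zero_of_mul hd2
    have hb : b ≠ 0 := right_ne_zero_of_mul hd2
    obtain ⟨x, y, hx, hy, rfl⟩ := exists_dvd_and_dvd_of_dvd_mul hd1
    rw [mem_image]
    exact ⟨(x, y), mem_product.2 ⟨Nat.mem_divisors.2 ⟨hx, ha⟩, Nat.mem_divisors.2 ⟨hy, hb⟩⟩, rfl⟩
  have h2 := (card_le_card h).trans card_image_le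
  rw [card_product] at h2
  exact_mod_cast h2

theorem tau_pos {a : ℕ} (ha : 1 ≤ a) : (1 : ℝ) ≤ a.divisors.card := by
  have : 0 < a.divisors.card := card_pos.2 ⟨1, Nat.one_mem_divisors.2 (by omega)⟩
  exact_mod_cast this

theorem HH_succ (R j : ℕ) : HH R (j + 1) ≤ HH R j ^ 2 := by
  classical
  have h1 : ∀ d ∈ Icc 1 R, ((d.divisors.card : ℝ) ^ (j + 1)) / d ≤
      ∑ w ∈ ((Icc 1 R) ×ˢ (Icc 1 R)).filter (fun w => w.1 * w.2 = d),
        ((w.1.divisors.card : ℝ) ^ j) / w.1 * (((w.2.divisors.card : ℝ) ^ j) / w.2) := by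
    intro d hd
    rw [mem_Icc] at hd
    have hd0 : (0 : ℝ) < d := by exact_mod_cast hd.1
    have h2 : ((d.divisors.card : ℝ) ^ (j + 1)) / d = ∑ _e ∈ d.divisors, ((d.divisors.card : ℝ) ^ j) / d := by
      rw [sum_const, nsmul_eq_mul, pow_succ]
      ring
    rw [h2]
    have h3 : ∑ e ∈ d.divisors, ((d.divisors.card : ℝ) ^ j) / d ≤
        ∑ e ∈ d.divisors, ((e.divisors.card : ℝ) ^ j) / e *
          ((((d / e : ℕ).divisors.card : ℝ) ^ j) / ((d / e : ℕ) : ℝ)) := by
      apply sum_le_sum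
      intro e he
      rw [Nat.mem_divisors] at he
      obtain ⟨f, rfl⟩ := he.1
      have he0 : 0 < e := Nat.pos_of_ne_zero (left_ne_zero_of_mul he.2)
      have hf0 : 0 < f := Nat.pos_of_ne_zero (right_ne_zero_of_mul he.2)
      rw [Nat.mul_div_cancel_left _ he0]
      have he0' : (0 : ℝ) < e := by exact_mod_cast he0
      have hf0' : (0 : ℝ) < f := by exact_mod_cast hf0
      rw [div_mul_div_comm]
      push_cast
      apply div_le_div_of_nonneg_right _ (by positivity)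
      rw [← mul_pow]
      exact pow_le_pow_left₀ (by positivity) (tau_mul e f) j
    refine h3.trans ?_
    have h4 : ∑ e ∈ d.divisors, ((e.divisors.card : ℝ) ^ j) / e *
          ((((d / e : ℕ).divisors.card : ℝ) ^ j) / ((d / e : ℕ) : ℝ)) =
        ∑ w ∈ d.divisors.image (fun e => (e, d / e)),
          ((w.1.divisors.card : ℝ) ^ j) / w.1 * (((w.2.divisors.card : ℝ) ^ j) / w.2) := by
      rw [sum_image]
      intro e _ e' _ h
      exact (Prod.mk.inj h).1
    rw [h4]
    apply sum_le_sum_of_subset_of_nonneg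
    · intro w hw
      rw [mem_image] at hw
      obtain ⟨e, he, rfl⟩ := hw
      rw [Nat.mem_divisors] at he
      have he0 : 0 < e := Nat.pos_of_dvd_of_pos he.1 (by omega)
      have h5 : e * (d / e) = d := Nat.mul_div_cancel' he.1
      rw [mem_filter, mem_product, mem_Icc, mem_Icc]
      refine ⟨⟨⟨he0, (Nat.le_of_dvd (by omega) he.1).trans hd.2⟩, ?_, (Nat.div_le_self _ _).trans hd.2⟩, h5⟩
      exact Nat.div_pos (Nat.le_of_dvd (by omega) he.1) he0
    · intro w _ _
      positivity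
  have h2 : HH R (j + 1) ≤ ∑ d ∈ Icc 1 R, ∑ w ∈ ((Icc 1 R) ×ˢ (Icc 1 R)).filter (fun w => w.1 * w.2 = d),
        ((w.1.divisors.card : ℝ) ^ j) / w.1 * (((w.2.divisors.card : ℝ) ^ j) / w.2) := sum_le_sum h1
  refine h2.trans ?_
  have h3 : ∑ d ∈ Icc 1 R, ∑ w ∈ ((Icc 1 R) ×ˢ (Icc 1 R)).filter (fun w => w.1 * w.2 = d),
        ((w.1.divisors.card : ℝ) ^ j) / w.1 * (((w.2.divisors.card : ℝ) ^ j) / w.2) ≤
      ∑ w ∈ (Icc 1 R) ×ˢ (Icc 1 R),
        ((w.1.divisors.card : ℝ) ^ j) / w.1 * (((w.2.divisors.card : ℝ) ^ j) / w.2) := by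
    rw [← sum_biUnion]
    · apply sum_le_sum_of_subset_of_nonneg
      · intro w hw
        rw [mem_biUnion] at hw
        obtain ⟨d, _, hw⟩ := hw
        exact (mem_filter.1 hw).1
      · intro w _ _
        positivity
    · intro d _ d' _ hdd
      rw [Function.onFun, disjoint_left]
      intro w hw hw'
      exact hdd ((mem_filter.1 hw).2.symm.trans (mem_filter.1 hw').2)
  refine h3.trans (le_of_eq ?_)
  rw [sum_product, pow_two, HH, sum_mul_sum]

theorem HH_le (R j : ℕ) : HH R j ≤ (1 + Real.log R) ^ 2 ^ j := by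
  rcases Nat.eq_zero_or_pos R with h0 | h0
  · subst h0
    unfold HH
    simp
  have hR : (0 : ℝ) ≤ Real.log R := Real.log_natCast_nonneg R
  induction j with
  | zero =>
    rw [pow_zero, pow_one]
    have h1 := harmonic_le_one_add_log R
    have h2 : HH R 0 = ((harmonic R : ℚ) : ℝ) := by
      unfold HH
      rw [harmonic_eq_sum_Icc]
      push_cast
      refine sum_congr rfl fun d _ => ?_
      rw [pow_zero, one_div]
    rw [h2]
    exact h1
  | succ j ih =>
    calc HH R (j + 1) ≤ HH R j ^ 2 := HH_succ R j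
      _ ≤ ((1 + Real.log R) ^ 2 ^ j) ^ 2 := pow_le_pow_left₀ (HH_nn R j) ih 2
      _ = _ := by rw [← pow_mul, pow_succ 2 j]

/-- the sum over one more divisor -/
theorem lcm_sum (R j D : ℕ) (hD : 1 ≤ D) :
    ∑ d ∈ Icc 1 R, (((Nat.lcm D d).divisors.card : ℝ) ^ j) / (Nat.lcm D d : ℕ) ≤
      ((D.divisors.card : ℝ) ^ (j + 1)) / D * HH R j := by
  classical
  have hD0 : (0 : ℝ) < D := by exact_mod_cast hD
  have h1 : ∀ d ∈ Icc 1 R, (((Nat.lcm D d).divisors.card : ℝ) ^ j) / (Nat.lcm D d : ℕ) ≤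
      ∑ w ∈ (D.divisors ×ˢ Icc 1 R).filter (fun w => w.1 * w.2 = d),
        (((D.divisors.card : ℝ) * w.2.divisors.card) ^ j) / (D * w.2) := by
    intro d hd
    rw [mem_Icc] at hd
    obtain ⟨e, he⟩ : ∃ e, e = Nat.gcd D d := ⟨_, rfl⟩
    have heD : e ∣ D := he ▸ Nat.gcd_dvd_left D d
    have hed : e ∣ d := he ▸ Nat.gcd_dvd_right D d
    have he0 : 0 < e := Nat.pos_of_dvd_of_pos heD hD
    obtain ⟨f, hf⟩ := hed
    have hf0 : 0 < f := Nat.pos_of_ne_zero (by rintro rfl; omega)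
    have hlcm : Nat.lcm D d = D * f := by
      have h2 := Nat.gcd_mul_lcm D d
      rw [← he, hf] at h2
      have h3 : e * Nat.lcm D d = e * (D * f) := by
        rw [hf, h2]
        ring
      exact Nat.eq_of_mul_eq_mul_left he0 h3
    have h4 : (e, f) ∈ (D.divisors ×ˢ Icc 1 R).filter (fun w => w.1 * w.2 = d) := by
      rw [mem_filter, mem_product, Nat.mem_divisors, mem_Icc]
      refine ⟨⟨⟨heD, by omega⟩, hf0, ?_⟩, hf.symm⟩
      exact (Nat.le_of_dvd hd.1 ⟨e, by rw [hf]; ring⟩).trans hd.2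
    refine le_trans ?_ (single_le_sum (f := fun w : ℕ × ℕ =>
      (((D.divisors.card : ℝ) * w.2.divisors.card) ^ j) / (D * w.2)) (fun w _ => div_nonneg
      (pow_nonneg (mul_nonneg (Nat.cast_nonneg _) (Nat.cast_nonneg _)) _)
      (mul_nonneg (Nat.cast_nonneg _) (Nat.cast_nonneg _))) h4)
    rw [hlcm]
    push_cast
    apply div_le_div_of_nonneg_right _ (mul_nonneg (Nat.cast_nonneg _) (Nat.cast_nonneg _))
    exact pow_le_pow_left₀ (Nat.cast_nonneg _) (tau_mul D f) j
  refine (sum_le_sum h1).trans ?_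
  have h2 : ∑ d ∈ Icc 1 R, ∑ w ∈ (D.divisors ×ˢ Icc 1 R).filter (fun w => w.1 * w.2 = d),
        (((D.divisors.card : ℝ) * w.2.divisors.card) ^ j) / (D * w.2) ≤
      ∑ w ∈ D.divisors ×ˢ Icc 1 R, (((D.divisors.card : ℝ) * w.2.divisors.card) ^ j) / (D * w.2) := by
    rw [← sum_biUnion]
    · apply sum_le_sum_of_subset_of_nonneg
      · intro w hw
        rw [mem_biUnion] at hw
        obtain ⟨d, _, hw⟩ := hw
        exact (mem_filter.1 hw).1
      · intro w _ _
        positivity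
    · intro d _ d' _ hdd
      rw [Function.onFun, disjoint_left]
      intro w hw hw'
      exact hdd ((mem_filter.1 hw).2.symm.trans (mem_filter.1 hw').2)
  refine h2.trans (le_of_eq ?_)
  rw [sum_product]
  simp only [sum_const, nsmul_eq_mul]
  unfold HH
  rw [mul_sum, mul_sum]
  refine sum_congr rfl fun d hd => ?_
  have hd0 : (0 : ℝ) < d := by exact_mod_cast (mem_Icc.1 hd).1
  rw [mul_pow, pow_succ]
  field_simp

/-- the integers of a residue class divisible by `D` after a shift -/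
theorem cnt_le (Q D y Y a t : ℕ) (hQ : 1 ≤ Q) (hD : 1 ≤ D) (hcop : Nat.Coprime D Q) (hQD : Q * D ≤ Y) :
    (((Ioc y (y + Y)).filter (fun n => n % Q = a % Q ∧ D ∣ n + t)).card : ℝ) ≤ 2 * ((Y : ℝ) / Q) / D := by
  classical
  have hQ0 : (0 : ℝ) < Q := by exact_mod_cast hQ
  have hD0 : (0 : ℝ) < D := by exact_mod_cast hD
  have hM : 0 < Q * D := Nat.mul_pos hQ hD
  rcases ((Ioc y (y + Y)).filter (fun n => n % Q = a % Q ∧ D ∣ n + t)).eq_empty_or_nonempty with h0 | h0
  · rw [h0, card_empty]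
    push_cast
    positivity
  obtain ⟨n₀, hn₀⟩ := h0
  rw [mem_filter] at hn₀
  have h1 : (Ioc y (y + Y)).filter (fun n => n % Q = a % Q ∧ D ∣ n + t) ⊆
      (Ioc y (y + Y)).filter (fun n => n ≡ n₀ [MOD Q * D]) := by
    intro n hn
    rw [mem_filter] at hn ⊢
    refine ⟨hn.1, ?_⟩
    rw [← Nat.modEq_and_modEq_iff_modEq_mul hcop.symm]
    refine ⟨?_, ?_⟩
    · show n % Q = n₀ % Q
      rw [hn.2.1, hn₀.2.1]
    · have e1 : n + t ≡ n₀ + t [MOD D] :=
        ((Nat.modEq_zero_iff_dvd).2 hn.2.2).trans ((Nat.modEq_zero_iff_dvd).2 hn₀.2.2).symm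
      exact Nat.ModEq.add_right_cancel' t e1
  have h2 : ((Ioc y (y + Y)).filter (fun n => n ≡ n₀ [MOD Q * D])).card ≤ Y / (Q * D) + 1 := by
    have h3 : (Ioc y (y + Y)).filter (fun n => n ≡ n₀ [MOD Q * D]) ⊆
        (Ioc y (y + Y)).filter (fun n => n ≡ n₀ [MOD Q * D]) := le_rfl
    -- injection to the quotients
    have h4 : Set.InjOn (fun n => (n - (y + 1)) / (Q * D))
        ((Ioc y (y + Y)).filter (fun n => n ≡ n₀ [MOD Q * D]) : Finset ℕ) := by
      intro n hn n' hn' h5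
      rw [mem_coe, mem_filter, mem_Ioc] at hn hn'
      simp only at h5
      have h6 : n ≡ n' [MOD Q * D] := hn.2.trans hn'.2.symm
      have h7 : n - (y + 1) ≡ n' - (y + 1) [MOD Q * D] := by
        apply Nat.ModEq.add_right_cancel' (y + 1)
        rw [Nat.sub_add_cancel (by omega), Nat.sub_add_cancel (by omega)]
        exact h6
      have h8 := Nat.div_add_mod (n - (y + 1)) (Q * D)
      have h9 := Nat.div_add_mod (n' - (y + 1)) (Q * D)
      rw [h5, show (n - (y + 1)) % (Q * D) = (n' - (y + 1)) % (Q * D) from h7, h9] at h8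
      omega
    have h5 : ((Ioc y (y + Y)).filter (fun n => n ≡ n₀ [MOD Q * D])).card ≤
        (range (Y / (Q * D) + 1)).card := by
      apply card_le_card_of_injOn _ _ h4
      intro n hn
      rw [mem_coe, mem_filter, mem_Ioc] at hn
      rw [mem_coe, mem_range]
      apply Nat.lt_succ_of_le
      apply Nat.div_le_div_right
      omega
    rwa [card_range] at h5
  have h3 : (((Ioc y (y + Y)).filter (fun n => n % Q = a % Q ∧ D ∣ n + t)).card : ℝ) ≤
      ((Y / (Q * D) + 1 : ℕ) : ℝ) := by exact_mod_cast (card_le_card h1).trans h2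
  refine h3.trans ?_
  push_cast
  have h4 : ((Y / (Q * D) : ℕ) : ℝ) ≤ (Y : ℝ) / (Q * D) := by
    have := @Nat.cast_div_le ℝ _ _ _ Y (Q * D)
    push_cast at this
    exact this
  have h5 : (1 : ℝ) ≤ (Y : ℝ) / (Q * D) := by
    rw [le_div_iff₀ (by positivity), one_mul]
    exact_mod_cast hQD
  have h6 : 2 * ((Y : ℝ) / Q) / D = (Y : ℝ) / (Q * D) + (Y : ℝ) / (Q * D) := by
    field_simp
    ring
  rw [h6]
  linarith

/-- the moments -/
theorem mo (Q y Y a t R : ℕ) (T : Finset ℕ) (hQ : 1 ≤ Q) (hT : ∀ d ∈ T, 1 ≤ d ∧ d ≤ R ∧ Nat.Coprime d Q) :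
    ∀ (k D : ℕ), 1 ≤ D → Nat.Coprime D Q → Q * (D * R ^ k) ≤ Y →
    ∑ n ∈ (Ioc y (y + Y)).filter (fun n => n % Q = a % Q),
      (if D ∣ n + t then ((T.filter (fun d => d ∣ n + t)).card : ℝ) ^ k else 0) ≤
      2 * ((Y : ℝ) / Q) * (((D.divisors.card : ℝ) ^ k) / D * ∏ i ∈ range k, HH R i) := by
  classical
  intro k
  induction k with
  | zero =>
    intro D hD hcop hY
    rw [pow_zero, mul_one] at hY
    have h1 := cnt_le Q D y Y a t hQ hD hcop hY
    simp only [pow_zero, prod_range_zero, mul_one]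
    rw [← sum_filter, sum_const, nsmul_eq_mul, mul_one, filter_filter]
    refine h1.trans (le_of_eq ?_)
    ring
  | succ k ih =>
    intro D hD hcop hY
    have h1 : ∀ n, (if D ∣ n + t then ((T.filter (fun d => d ∣ n + t)).card : ℝ) ^ (k + 1) else 0) =
        ∑ d ∈ T, (if Nat.lcm D d ∣ n + t then ((T.filter (fun d => d ∣ n + t)).card : ℝ) ^ k else 0) := by
      intro n
      by_cases hn : D ∣ n + t
      · rw [if_pos hn]
        have h2 : ∀ d, (Nat.lcm D d ∣ n + t ↔ d ∣ n + t) := fun d =>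
          ⟨fun h => (Nat.dvd_lcm_right D d).trans h, fun h => Nat.lcm_dvd hn h⟩
        simp only [h2]
        rw [← sum_filter, sum_const, nsmul_eq_mul, pow_succ]
        ring
      · rw [if_neg hn]
        symm
        apply sum_eq_zero
        intro d _
        rw [if_neg]
        intro h
        exact hn ((Nat.dvd_lcm_left D d).trans h)
    simp only [h1]
    rw [sum_comm]
    have h2 : ∀ d ∈ T, ∑ n ∈ (Ioc y (y + Y)).filter (fun n => n % Q = a % Q),
        (if Nat.lcm D d ∣ n + t then ((T.filter (fun d => d ∣ n + t)).card : ℝ) ^ k else 0) ≤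
        2 * ((Y : ℝ) / Q) * ((((Nat.lcm D d).divisors.card : ℝ) ^ k) / (Nat.lcm D d : ℕ) *
          ∏ i ∈ range k, HH R i) := by
      intro d hd
      obtain ⟨hd1, hd2, hd3⟩ := hT d hd
      apply ih (Nat.lcm D d) (Nat.pos_of_ne_zero (Nat.lcm_ne_zero (by omega) (by omega)))
        (Nat.Coprime.coprime_dvd_left (Nat.lcm_dvd_mul D d) (Nat.Coprime.mul_left hcop hd3))
      refine le_trans ?_ hY
      apply Nat.mul_le_mul_left
      rw [pow_succ]
      calc Nat.lcm D d * R ^ k ≤ (D * R) * R ^ k := by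
            apply Nat.mul_le_mul_right
            refine (Nat.le_of_dvd (Nat.mul_pos hD hd1) (Nat.lcm_dvd_mul D d)).trans ?_
            exact Nat.mul_le_mul_left _ hd2
        _ = D * (R ^ k * R) := by ring
    refine (sum_le_sum h2).trans ?_
    rw [← mul_sum, ← sum_mul]
    have hYQ : 0 ≤ 2 * ((Y : ℝ) / Q) := by positivity
    apply mul_le_mul_of_nonneg_left _ hYQ
    have h3 : ∑ d ∈ T, (((Nat.lcm D d).divisors.card : ℝ) ^ k) / (Nat.lcm D d : ℕ) ≤
        ((D.divisors.card : ℝ) ^ (k + 1)) / D * HH R k := by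
      refine le_trans ?_ (lcm_sum R k D hD)
      apply sum_le_sum_of_subset_of_nonneg
      · intro d hd
        obtain ⟨hd1, hd2, _⟩ := hT d hd
        exact mem_Icc.2 ⟨hd1, hd2⟩
      · intro d _ _
        positivity
    rw [prod_range_succ]
    calc (∑ d ∈ T, (((Nat.lcm D d).divisors.card : ℝ) ^ k) / (Nat.lcm D d : ℕ)) * ∏ i ∈ range k, HH R i
        ≤ (((D.divisors.card : ℝ) ^ (k + 1)) / D * HH R k) * ∏ i ∈ range k, HH R i :=
          mul_le_mul_of_nonneg_right h3 (prod_nonneg fun i _ => HH_nn R i)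
      _ = _ := by ring

/-- the moments, final form -/
theorem moments (Q y Y a t R k : ℕ) (T : Finset ℕ) (hQ : 1 ≤ Q)
    (hT : ∀ d ∈ T, 1 ≤ d ∧ d ≤ R ∧ Nat.Coprime d Q) (hY : Q * R ^ k ≤ Y) :
    ∑ n ∈ (Ioc y (y + Y)).filter (fun n => n % Q = a % Q), ((T.filter (fun d => d ∣ n + t)).card : ℝ) ^ k ≤
      2 * ((Y : ℝ) / Q) * (1 + Real.log R) ^ 2 ^ k := by
  have h1 := mo Q y Y a t R T hQ hT k 1 le_rfl (Nat.coprime_one_left Q) (by rwa [one_mul])
  simp only [one_dvd, if_true, Nat.divisors_one, card_singleton, Nat.cast_one, one_pow, div_one, one_mul] at h1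
  refine h1.trans ?_
  apply mul_le_mul_of_nonneg_left _ (by positivity)
  have hR : (0 : ℝ) ≤ Real.log R := Real.log_natCast_nonneg R
  have h2 : ∏ i ∈ range k, HH R i ≤ ∏ i ∈ range k, (1 + Real.log R) ^ 2 ^ i :=
    prod_le_prod (fun i _ => HH_nn R i) (fun i _ => HH_le R i)
  refine h2.trans ?_
  rw [prod_pow_eq_pow_sum]
  apply pow_le_pow_right₀ (by linarith)
  have h3 : ∑ i ∈ range k, 2 ^ i = 2 ^ k - 1 := Nat.geomSum_eq (le_refl 2) k |>.trans (by simp)
  exact h3.le.trans (Nat.sub_le _ _)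

end Pool.Agent.Helper51.UV
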