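import Pool.Agent.Helper51.UL.Mom3
import Pool.Agent.Helper51.UV.Mo

/-!
The moments of the enveloping sieve at shifts `n + t_i`, at arbitrary positions: this is `UL.mom3` with a bound for the
moments of the weight in intervals instead of the pointwise bound.
-/

set_option autoImplicit false

open Finset Filter

namespace Pool.Agent.Helper51.UV

open Pool.Agent.Helper51.UL
open Pool.Agent.Y880.RS

open Pool.Agent.TH423.SH (PS PIj prb prc)
open Pool.Agent.Y727.PSP (qf)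
open Pool.Agent.Y917.PSP

/-- (MOM4) -/
def S_MOM4 : Prop := ∀ M : ℕ, ∃ c : ℝ, 0 < c ∧ ∀ (A : ℕ) (η : ℝ), 0 < η → ∃ B : ℕ, ∃ s₀ : ℝ,
  ∀ A' : ℕ, ∃ Z₀ : ℕ,
  ∀ Z Q E : ℕ, Z₀ ≤ Z → 1 ≤ Q → Q ≤ Z ^ A → 1 ≤ E → Real.log E ≤ Real.log Z ^ A' →
  (∀ p : ℕ, p.Prime → (p : ℝ) ≤ s₀ → p ∣ Q) →
  ∃ ν : ℕ → ℝ, (∀ n, 0 ≤ ν n) ∧
    (∀ m ≤ M, ∀ t y Y a : ℕ, Z * Q ≤ Y →
      ∑ n ∈ (Ioc y (y + Y)).filter (fun n => n % Q = a % Q), ν (n + t) ^ m ≤
        Real.log Z ^ B * ((Y : ℝ) / Q)) ∧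
    (∀ n : ℕ, 1 ≤ n → (∀ p : ℕ, p.Prime → p ∣ n → Z < p) →
      c * ((Q.totient : ℝ) / Q) * Real.log Z ≤ ν n) ∧
    (∀ n n' : ℕ, 1 ≤ n → 1 ≤ n' →
      (∀ p : ℕ, p.Prime → p ≤ Z → ¬ p ∣ Q → (p ∣ n ↔ p ∣ n')) → ν n = ν n') ∧
    ∀ m ≤ M, ∀ (t : Fin m → ℕ) (y Y a Δ : ℕ) (s : ℝ), Z * Q ≤ Y → s₀ ≤ s →
      (∀ p : ℕ, p.Prime → (p : ℝ) ≤ s → p ∣ Q) → (∀ i, 1 ≤ t i) → Δ ≠ 0 → Real.log Δ ≤ A * s →
      (∀ i j, i ≠ j → ∀ p : ℕ, p.Prime → p ≤ Z → ¬ p ∣ Q → (p : ℤ) ∣ (t i : ℤ) - t j →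
        p ∣ Δ ∧ ((p : ℝ) ≤ Real.exp (Real.sqrt (Real.log Z)) ∨ p ∣ E)) →
      |(∑ n ∈ (Ioc y (y + Y)).filter (fun n => n % Q = a % Q), ∏ i, ν (n + t i)) / ((Y : ℝ) / Q) - 1| ≤ η

theorem mom4 : S_MOM4 := by
  classical
  intro M₀
  obtain ⟨C, hC1, hC⟩ := fl
  obtain ⟨cS, CS₀, hcS, hCS₀, hSel⟩ := Pool.Agent.Y674.PSP.sel
  obtain ⟨M, hM⟩ : ∃ M, M = max M₀ 1 := ⟨_, rfl⟩
  have hM1 : 1 ≤ M := hM ▸ le_max_right _ _
  have hMM : M₀ ≤ M := hM ▸ le_max_left _ _
  obtain ⟨CS1, hCSd⟩ : ∃ CS, CS = max CS₀ 1 := ⟨_, rfl⟩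
  have hCS11 : 1 ≤ CS1 := hCSd ▸ le_max_right _ _
  have hCSS1 : CS₀ ≤ CS1 := hCSd ▸ le_max_left _ _
  obtain ⟨CS, hCS2⟩ : ∃ CS, CS = 2 * CS1 := ⟨_, rfl⟩
  have hCS1 : 1 ≤ CS := by linarith
  obtain ⟨B1, R1, hR1⟩ := prc 1 6 (by norm_num) (by
    intro p hp hp4
    have h2 := hp.two_le
    interval_cases p
    · norm_num
    · norm_num
    · exact absurd hp (by norm_num))
  have hMr : (1 : ℝ) ≤ M := by exact_mod_cast hM1
  have hMr0 : (0 : ℝ) < M := by linarith
  refine ⟨cS / (128 * M), by positivity, fun A η₀ hη₀ => ?_⟩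
  obtain ⟨η, hηd⟩ : ∃ η, η = min η₀ 1 := ⟨_, rfl⟩
  have hη1 : η ≤ 1 := hηd ▸ min_le_right _ _
  have hηη : η ≤ η₀ := hηd ▸ min_le_left _ _
  have hη : 0 < η := by rw [hηd]; exact lt_min hη₀ one_pos
  have hA0 : (0 : ℝ) ≤ A := Nat.cast_nonneg A
  choose s₀ hs₀ using fun m => locg m (A : ℝ) (η / 4) hA0 (by positivity)
  obtain ⟨s1, hs1⟩ : ∃ s1, s1 = ∑ m ∈ range (M + 1), |s₀ m| := ⟨_, rfl⟩
  have hs1m : ∀ m, m ≤ M → s₀ m ≤ s1 := by
    intro m hm
    rw [hs1]
    exact (le_abs_self _).trans (single_le_sum (f := fun m => |s₀ m|) (fun _ _ => abs_nonneg _)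
      (mem_range.2 (by omega)))
  refine ⟨2 ^ (2 * M + 1) + (B1 + 2) * M + 1,
    max ((C * (M + 1) : ℕ) : ℝ) (max 6 s1), fun A' => ?_⟩
  have hev := (Real.tendsto_log_atTop.comp tendsto_natCast_atTop_atTop).eventually
    ((asym M C B1 0 R1 hM1 CS η hCS1 hη).and (ev_exp_sqrt (A' + 5) (64 * (A + 1) * CS1)))
  obtain ⟨X₀, hX₀⟩ := eventually_atTop.1 hev
  refine ⟨max X₀ 2, fun X Q E hX hQ1 hQX hE1 hEX hQs => ?_⟩
  obtain ⟨⟨b, hb1, hb2, hb3, hb4, hb5, hb6, hb7, hb8, hb9, hb10, hb11, hb12⟩, hb13⟩ :=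
    hX₀ X ((le_max_left _ _).trans hX)
  simp only [Function.comp] at hb3 hb4 hb5 hb6 hb7 hb8 hb9 hb10 hb11 hb12 hb13
  obtain ⟨l, hl⟩ : ∃ l, l = Real.log X := ⟨_, rfl⟩
  rw [← hl] at hb3 hb4 hb5 hb6 hb7 hb8 hb9 hb10 hb11 hb12 hb13 hEX ⊢
  have hX2 : 2 ≤ X := (le_max_right _ _).trans hX
  have hX0 : (0 : ℝ) < X := by
    have : 0 < X := by omega
    exact_mod_cast this
  have hXe : Real.exp l = X := by rw [hl, Real.exp_log hX0]
  have hl0 : 0 < l := by linarith
  have hb0 : 0 < b := by omega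
  have hbr : (0 : ℝ) < b := by exact_mod_cast hb0
  have hCr1 : (1 : ℝ) ≤ C := by exact_mod_cast hC1
  have hCr : (0 : ℝ) < C := by linarith
  have hsq0 : 0 < Real.sqrt l := Real.sqrt_pos.2 hl0
  have hsq1 : 1 ≤ Real.sqrt l := Real.one_le_sqrt.2 (by linarith)
  have hlog2 : 0.6931471803 < Real.log 2 := Real.log_two_gt_d9
  have hlog2' : Real.log 2 < 0.6931471808 := Real.log_two_lt_d9
  have hlog20 : 0 < Real.log 2 := by linarith
  -- the level `z`
  have hy1 : 1 ≤ l / (8 * C * b * Real.log 2) := aux9 C b _ l hCr hbr hsq1 hb3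
  obtain ⟨J, hJ1, hJ2⟩ := exists_nat_pow_near hy1 (by norm_num : (1 : ℝ) < 2)
  rw [le_div_iff₀ (by positivity)] at hJ1
  rw [div_lt_iff₀ (by positivity)] at hJ2
  obtain ⟨z, hz⟩ : ∃ z : ℕ, z = 2 ^ 2 ^ J := ⟨_, rfl⟩
  have hzr : (z : ℝ) = (2 : ℝ) ^ 2 ^ J := by rw [hz]; push_cast; rfl
  have hlz : Real.log z = 2 ^ J * Real.log 2 := by
    rw [hzr, Real.log_pow]; push_cast; rfl
  have hz2 : 2 ≤ z := by
    rw [hz]
    calc 2 = 2 ^ 1 := rfl
      _ ≤ 2 ^ 2 ^ J := Nat.pow_le_pow_right (by norm_num) Nat.one_le_two_pow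
  have hz0 : (0 : ℝ) < z := by
    have : 0 < z := by omega
    exact_mod_cast this
  have hz1' : 8 * (C : ℝ) * b * Real.log z ≤ l := by rw [hlz]; linarith
  have hz2' : l < 16 * (C : ℝ) * b * Real.log z := by
    rw [hlz]
    rw [pow_succ] at hJ2
    linarith
  have hlz0 : 0 < Real.log z := by rw [hlz]; positivity
  have hsz : Real.sqrt l < Real.log z := aux11 C b _ _ l hCr hbr hb3 hz2'
  have hez : Real.exp (Real.sqrt l) < z := by
    rw [← Real.exp_log hz0]
    exact Real.exp_lt_exp.2 hsz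
  have hlzl : Real.log z ≤ l / (64 * M) :=
    aux2 M C b _ l (aux1 M C b hCr1 (by exact_mod_cast hb2) hbr) hz1' hlz0.le hMr0
  -- the level `R`
  obtain ⟨R, hR⟩ : ∃ R : ℕ, R = ⌊Real.exp (l / (32 * M))⌋₊ := ⟨_, rfl⟩
  have hRle : (R : ℝ) ≤ Real.exp (l / (32 * M)) := by
    rw [hR]
    exact Nat.floor_le (Real.exp_pos _).le
  have hRge : Real.exp (l / (64 * M)) ≤ R := by
    have e1 : Real.exp (l / (32 * M)) < (R : ℝ) + 1 := by rw [hR]; exact Nat.lt_floor_add_one _
    have e2 : l / (32 * M) = l / (64 * M) + l / (64 * M) := by field_simp; norm_num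
    rw [e2, Real.exp_add] at e1
    exact aux3 _ _ e1 (aux12 M l hMr0 hb9)
  have hzR : z ≤ R := by
    have : (z : ℝ) ≤ R := by
      rw [← Real.exp_log hz0]
      exact (Real.exp_le_exp.2 hlzl).trans hRge
    exact_mod_cast this
  have hR0 : (0 : ℝ) < R := lt_of_lt_of_le (Real.exp_pos _) hRge
  have hlR1 : l / (64 * M) ≤ Real.log R := by
    rw [Real.le_log_iff_exp_le hR0]
    exact hRge
  have hlR2 : Real.log R ≤ l / (32 * M) := by
    rw [Real.log_le_iff_le_exp hR0]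
    exact hRle
  have hl32 : l / (32 * M) ≤ l := aux4 l M 32 (by norm_num) hMr hl0
  have hlR3 : Real.log R ≤ l := hlR2.trans hl32
  have hlR0 : 0 < Real.log R := lt_of_lt_of_le (by positivity) hlR1
  have hRX : R ≤ X := by
    have : (R : ℝ) ≤ X := by
      rw [← hXe]
      exact hRle.trans (Real.exp_le_exp.2 hl32)
    exact_mod_cast this
  -- the weights
  obtain ⟨lam0, hlam10, hlamb0, hsupp0, hG00, hGup0, hGlo0⟩ := hSel z R hz2 hzR
  have hsupp0' : ∀ d, lam0 d ≠ 0 → 1 ≤ d ∧ d ≤ R ∧ ∀ p : ℕ, p.Prime → p ∣ d → z < p := by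
    intro d hd
    have := hsupp0 d hd
    exact ⟨this.1, this.2.1, this.2.2.2⟩
  have hQE1 : 1 ≤ Q * E := Nat.mul_pos hQ1 hE1
  have hqf := qf_lamQ R z (Q * E) lam0 hQE1 (by omega) hsupp0' hlamb0
  have hPcard : (((Q * E).primeFactors.filter (fun p => z < p)).card : ℝ) ≤ (A + 1) * l ^ (A' + 1) := by
    have hz1r : (1 : ℝ) < z := by
      have : 1 < z := by omega
      exact_mod_cast this
    have e1 := Pool.Agent.Y394.PSP.card_mul_log_le hz1r (Q * E) (by omega)
      ((Q * E).primeFactors.filter (fun p => z < p)) (by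
        intro p hp
        rw [mem_filter, Nat.mem_primeFactors] at hp
        exact ⟨hp.1.1, by exact_mod_cast hp.2, hp.1.2.1⟩)
    have e2 : Real.log ((Q * E : ℕ) : ℝ) ≤ (A + 1) * l ^ (A' + 1) := by
      have hQ0 : (0 : ℝ) < Q := by exact_mod_cast hQ1
      have hE0 : (0 : ℝ) < E := by exact_mod_cast hE1
      have h1l : 1 ≤ l := by linarith
      have e4 : l ≤ l ^ (A' + 1) := le_self_pow₀ h1l (by omega)
      have e5 : l ^ A' ≤ l ^ (A' + 1) := pow_le_pow_right₀ h1l (by omega)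
      rw [Nat.cast_mul, Real.log_mul hQ0.ne' hE0.ne']
      have e3 : Real.log Q ≤ A * l := by
        calc Real.log Q ≤ Real.log ((X : ℝ) ^ A) := Real.log_le_log hQ0 (by exact_mod_cast hQX)
          _ = A * l := by rw [Real.log_pow, hl]
      calc Real.log Q + Real.log E ≤ A * l + l ^ A' := add_le_add e3 hEX
        _ ≤ A * l ^ (A' + 1) + l ^ (A' + 1) := by gcongr
        _ = _ := by ring
    exact aux21 _ _ _ (Nat.cast_nonneg _) (hsq1.trans hsz.le) (e1.trans e2)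
  have hGdiff : |qf R (lamQ (Q * E) lam0) - qf R lam0| ≤ qf R lam0 / 2 := by
    refine hqf.trans ?_
    have e0 : 0 ≤ 4 * (1 + Real.log R) ^ 3 / z := by positivity
    have e1 : (((Q * E).primeFactors.filter (fun p => z < p)).card : ℝ) * (4 * (1 + Real.log R) ^ 3 / z) ≤
        ((A + 1) * l ^ (A' + 1)) * (4 * (2 * l) ^ 3 / z) := by
      gcongr
      linarith
    refine e1.trans ?_
    have e2 : 1 ≤ qf R lam0 * (CS1 * l) := by
      refine hGlo0.trans ?_
      have : CS₀ * Real.log R ≤ CS1 * l := by gcongr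
      gcongr
    have e3 : ((A + 1) * l ^ (A' + 1)) * (4 * (2 * l) ^ 3 / z) * (2 * (CS1 * l)) ≤ 1 := by
      have e4 : ((A + 1) * l ^ (A' + 1)) * (4 * (2 * l) ^ 3 / z) * (2 * (CS1 * l)) =
          (64 * (A + 1) * CS1 * l ^ (A' + 5)) / z := by
        rw [pow_add l A' 5, pow_add l A' 1]
        field_simp
        ring
      rw [e4, div_le_one hz0]
      exact hb13.trans hez.le
    have e5 : 0 < 2 * (CS1 * l) := by positivity
    have e6 : ((A + 1) * l ^ (A' + 1)) * (4 * (2 * l) ^ 3 / z) ≤ 1 / (2 * (CS1 * l)) := by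
      rw [le_div_iff₀ e5]
      exact e3
    refine e6.trans ?_
    rw [div_le_div_iff₀ e5 (by norm_num)]
    linarith
  obtain ⟨lam, hlam⟩ : ∃ lam, lam = lamQ (Q * E) lam0 := ⟨_, rfl⟩
  have hlam1 : lam 1 = 1 := by
    rw [hlam]
    unfold lamQ
    rw [if_pos (Nat.coprime_one_left (Q * E)), hlam10]
  have hlamb : ∀ d, |lam d| ≤ 1 := by
    rw [hlam]
    exact lamQ_abs hlamb0
  have hsupp : ∀ d, lam d ≠ 0 → 1 ≤ d ∧ d ≤ R ∧ Squarefree d ∧ ∀ p : ℕ, p.Prime → p ∣ d → z < p := by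
    intro d hd
    rw [hlam] at hd
    exact hsupp0 d (lamQ_ne hd).2
  have hlamQE : ∀ d, lam d ≠ 0 → Nat.Coprime d (Q * E) := by
    intro d hd
    rw [hlam] at hd
    exact (lamQ_ne hd).1
  have hlamQ : ∀ d, lam d ≠ 0 → Nat.Coprime d Q := fun d hd => (hlamQE d hd).coprime_mul_right_right
  obtain ⟨G, hG⟩ : ∃ G, G = qf R lam := ⟨_, rfl⟩
  have hGd := abs_le.1 hGdiff
  rw [← hlam, ← hG] at hGd
  have hG0 : 0 < G := by linarith [hGd.1]
  have hGup : G * (cS / 2 * Real.log R) ≤ Real.log z := by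
    refine le_trans ?_ hGup0
    have : G ≤ 2 * qf R lam0 := by linarith [hGd.2]
    calc G * (cS / 2 * Real.log R) ≤ (2 * qf R lam0) * (cS / 2 * Real.log R) := by gcongr
      _ = _ := by ring
  have hGlo : 1 ≤ G * (CS * Real.log R) := by
    refine hGlo0.trans ?_
    have : qf R lam0 ≤ 2 * G := by linarith [hGd.1]
    calc qf R lam0 * (CS₀ * Real.log R) ≤ (2 * G) * (CS1 * Real.log R) := by gcongr
      _ = _ := by rw [hCS2]; ring
  obtain ⟨V, hV⟩ : ∃ V, V = PIj Q z 1 := ⟨_, rfl⟩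
  have hV0 : 0 < V := hV ▸ PIj_one_pos Q z
  have hVG0 : 0 < V * G := by positivity
  have hs0C : ∀ p : ℕ, p.Prime → p ≤ C * (M + 1) → p ∣ Q := fun p hp hpC =>
    hQs p hp (le_trans (by exact_mod_cast hpC) (le_max_left _ _))
  have h6Q : 6 ∣ Q := by
    have e2 : 2 ∣ Q := hQs 2 Nat.prime_two (by
      refine le_trans ?_ ((le_max_left _ _).trans (le_max_right _ _))
      norm_num)
    have e3 : 3 ∣ Q := hQs 3 Nat.prime_three (by
      refine le_trans ?_ ((le_max_left _ _).trans (le_max_right _ _))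
      norm_num)
    have := Nat.Coprime.mul_dvd_of_dvd_of_dvd (by norm_num : Nat.Coprime 2 3) e2 e3
    simpa using this
  have hRz : R1 ≤ z := by
    have : (R1 : ℝ) ≤ z := hb8.trans hez.le
    exact_mod_cast this
  have hVlow : 1 / Real.log z ^ B1 ≤ V := by
    rw [hV]
    exact (hR1 z hRz).trans (PIj_mono_W Q 6 z h6Q)
  have hlz2 : Real.log z ≤ l := hlzl.trans (aux4 l M 64 (by norm_num) hMr hl0)
  have hGinv : 1 / G ≤ CS * l := by
    rw [div_le_iff₀ hG0]
    refine hGlo.trans ?_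
    have e1 : CS * Real.log R ≤ CS * l := by gcongr
    calc G * (CS * Real.log R) ≤ G * (CS * l) := by gcongr
      _ = CS * l * G := mul_comm _ _
  have hVinv : 1 / V ≤ l ^ B1 := by
    have e1 : 1 / V ≤ Real.log z ^ B1 := aux13 V _ B1 hV0 hlz0 hVlow
    exact e1.trans (pow_le_pow_left₀ hlz0.le hlz2 B1)
  have hVGinv : 1 / (V * G) ≤ l ^ (B1 + 2) := by
    have e1 : 1 / (V * G) = (1 / V) * (1 / G) := by rw [one_div_mul_one_div]
    rw [e1, pow_add]
    have e2 : CS * l ≤ l ^ 2 := aux5 CS l hb10 hl0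
    have e3 : 0 ≤ 1 / G := by positivity
    calc (1 / V) * (1 / G) ≤ l ^ B1 * (CS * l) := by gcongr
      _ ≤ l ^ B1 * l ^ 2 := by gcongr
  refine ⟨nuM Q z lam (V * G), ?_, ?_, ?_, ?_, ?_⟩
  · intro n
    unfold nuM
    split_ifs <;> positivity
  · -- the moments
    intro m hm t y Y a hY
    have hmM : m ≤ M := hm.trans hMM
    obtain ⟨T, hT⟩ : ∃ T, T = (Icc 1 R).filter (fun d => lam d ≠ 0) := ⟨_, rfl⟩
    have hRX2 : (R : ℝ) ^ (2 * m) ≤ Real.exp (l / 16) := by
      calc (R : ℝ) ^ (2 * m) ≤ Real.exp (l / (32 * M)) ^ (2 * m) := pow_le_pow_left₀ hR0.le hRle _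
        _ = Real.exp ((2 * m : ℕ) * (l / (32 * M))) := by rw [Real.exp_nat_mul]
        _ ≤ Real.exp (l / 16) := by
          apply Real.exp_le_exp.2
          exact aux7 l M m (by exact_mod_cast hmM) hl0 hMr0
    have hQR : Q * R ^ (2 * m) ≤ Y := by
      have h1 : ((R ^ (2 * m) : ℕ) : ℝ) ≤ X := by
        push_cast
        refine hRX2.trans ?_
        rw [← hXe]
        exact Real.exp_le_exp.2 (by linarith)
      have h2 : R ^ (2 * m) ≤ X := by exact_mod_cast h1
      calc Q * R ^ (2 * m) ≤ Q * X := Nat.mul_le_mul_left _ h2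
        _ = X * Q := mul_comm _ _
        _ ≤ Y := hY
    have hmo := moments Q y Y a t R (2 * m) T hQ1 (by
      intro d hd
      rw [hT, mem_filter] at hd
      have := hsupp d hd.2
      exact ⟨this.1, this.2.1, hlamQ d hd.2⟩) hQR
    have hdiv : ∀ n : ℕ, 1 ≤ n → |∑ d ∈ n.divisors, lam d| ≤ ((T.filter (fun d => d ∣ n)).card : ℝ) := by
      intro n hn
      have h1 : ∑ d ∈ n.divisors, lam d = ∑ d ∈ T.filter (fun d => d ∣ n), lam d := by
        symm
        apply sum_subset_zero_on_sdiff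
        · intro d hd
          rw [mem_filter] at hd
          exact Nat.mem_divisors.2 ⟨hd.2, by omega⟩
        · intro d hd
          rw [Finset.mem_sdiff, Nat.mem_divisors, mem_filter, hT, mem_filter, mem_Icc] at hd
          by_contra hne
          have := hsupp d hne
          exact hd.2 ⟨⟨⟨this.1, this.2.1⟩, hne⟩, hd.1.1⟩
        · intro d _
          rfl
      rw [h1]
      refine (abs_sum_le_sum_abs _ _).trans ?_
      calc ∑ d ∈ T.filter (fun d => d ∣ n), |lam d| ≤ ∑ _d ∈ T.filter (fun d => d ∣ n), (1 : ℝ) :=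
            sum_le_sum fun d _ => hlamb d
        _ = _ := by rw [sum_const, nsmul_eq_mul, mul_one]
    have hpt : ∀ n : ℕ, 1 ≤ n → nuM Q z lam (V * G) n ^ m ≤
        l ^ ((B1 + 2) * m) * ((T.filter (fun d => d ∣ n)).card : ℝ) ^ (2 * m) := by
      intro n hn
      have h1 : nuM Q z lam (V * G) n ≤ l ^ (B1 + 2) * ((T.filter (fun d => d ∣ n)).card : ℝ) ^ 2 := by
        unfold nuM
        split_ifs with hr
        · have e6 : 0 ≤ 1 / (V * G) := by positivity
          have e7 : (∑ d ∈ n.divisors, lam d) ^ 2 ≤ ((T.filter (fun d => d ∣ n)).card : ℝ) ^ 2 := by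
            rw [← sq_abs (∑ d ∈ n.divisors, lam d)]
            exact pow_le_pow_left₀ (abs_nonneg _) (hdiv n hn) 2
          have e8 : (∑ d ∈ n.divisors, lam d) ^ 2 / (V * G) =
              (∑ d ∈ n.divisors, lam d) ^ 2 * (1 / (V * G)) := by
            rw [mul_one_div]
          rw [e8, mul_comm (l ^ (B1 + 2))]
          exact mul_le_mul e7 hVGinv e6 (by positivity)
        · positivity
      have h0 : 0 ≤ nuM Q z lam (V * G) n := by
        unfold nuM
        split_ifs <;> positivity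
      calc nuM Q z lam (V * G) n ^ m ≤ (l ^ (B1 + 2) * ((T.filter (fun d => d ∣ n)).card : ℝ) ^ 2) ^ m :=
            pow_le_pow_left₀ h0 h1 m
        _ = _ := by rw [mul_pow, ← pow_mul, ← pow_mul]
    have hY0 : (0 : ℝ) ≤ (Y : ℝ) / Q := by positivity
    have hlR3' : 0 ≤ Real.log R := hlR0.le
    calc ∑ n ∈ (Ioc y (y + Y)).filter (fun n => n % Q = a % Q), nuM Q z lam (V * G) (n + t) ^ m
        ≤ ∑ n ∈ (Ioc y (y + Y)).filter (fun n => n % Q = a % Q),
          l ^ ((B1 + 2) * m) * ((T.filter (fun d => d ∣ n + t)).card : ℝ) ^ (2 * m) := by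
          apply sum_le_sum
          intro n hn
          rw [mem_filter, mem_Ioc] at hn
          exact hpt (n + t) (by omega)
      _ = l ^ ((B1 + 2) * m) * ∑ n ∈ (Ioc y (y + Y)).filter (fun n => n % Q = a % Q),
          ((T.filter (fun d => d ∣ n + t)).card : ℝ) ^ (2 * m) := by rw [mul_sum]
      _ ≤ l ^ ((B1 + 2) * m) * (2 * ((Y : ℝ) / Q) * (1 + Real.log R) ^ 2 ^ (2 * m)) :=
          mul_le_mul_of_nonneg_left hmo (by positivity)
      _ ≤ l ^ ((B1 + 2) * m) * (l * ((Y : ℝ) / Q) * (l ^ 2) ^ 2 ^ (2 * m)) := by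
          apply mul_le_mul_of_nonneg_left _ (by positivity)
          have h1 : (2 : ℝ) ≤ l := by linarith
          have h2 : 1 + Real.log R ≤ l ^ 2 := by nlinarith
          apply mul_le_mul (mul_le_mul_of_nonneg_right h1 hY0) (pow_le_pow_left₀ (by linarith) h2 _)
            (by positivity) (by positivity)
      _ = l ^ (2 ^ (2 * m + 1) + (B1 + 2) * m + 1) * ((Y : ℝ) / Q) := by
          rw [← pow_mul, show 2 * 2 ^ (2 * m) = 2 ^ (2 * m + 1) by rw [pow_succ]; ring]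
          rw [pow_add, pow_add, pow_one]
          ring
      _ ≤ l ^ (2 ^ (2 * M + 1) + (B1 + 2) * M + 1) * ((Y : ℝ) / Q) := by
          apply mul_le_mul_of_nonneg_right _ hY0
          apply pow_le_pow_right₀ (by linarith)
          have h1 : 2 ^ (2 * m + 1) ≤ 2 ^ (2 * M + 1) := Nat.pow_le_pow_right (by norm_num) (by omega)
          have h2 : (B1 + 2) * m ≤ (B1 + 2) * M := Nat.mul_le_mul_left _ hmM
          omega
  · -- rough numbers
    intro n hn1 hn
    unfold nuM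
    rw [if_pos]
    · have e1 : ∑ d ∈ n.divisors, lam d = 1 := by
        rw [Finset.sum_eq_single 1, hlam1]
        · intro d hd hd1
          by_contra h
          have h2 := (hsupp d h).2.1
          obtain ⟨q, hq, hqd⟩ := Nat.exists_prime_and_dvd hd1
          have h3 := hn q hq (hqd.trans (Nat.dvd_of_mem_divisors hd))
          have h4 := Nat.le_of_dvd (hsupp d h).1 hqd
          omega
        · intro h
          exact absurd (Nat.one_mem_divisors.2 (by omega)) h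
      rw [e1, one_pow, le_div_iff₀ hVG0]
      have e2 := prb Q z hQ1 hz2
      rw [← hV] at e2
      have e3 : cS / (128 * M) * l * G ≤ Real.log z := by
        refine le_trans ?_ hGup
        have : cS / (128 * M) * l * G = G * (cS / 2 * (l / (64 * M))) := by
          field_simp
          ring
        rw [this]
        gcongr
      have hW0 : (0 : ℝ) < Q := by
        have : 0 < Q := hQ1
        exact_mod_cast this
      calc cS / (128 * M) * ((Q.totient : ℝ) / Q) * l * (V * G)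
          = (cS / (128 * M) * l * G) * (V * Q.totient) / Q := by ring
        _ ≤ Real.log z * (V * Q.totient) / Q := by gcongr
        _ = (V * Real.log z * Q.totient) / Q := by ring
        _ ≤ Q / Q := by gcongr
        _ = 1 := div_self hW0.ne'
    · intro q hq hqp
      unfold PS at hq
      rw [mem_filter, mem_Icc] at hq
      have := hn q hq.2.1 hqp
      omega
  · -- invariance
    intro n n' hn hn' h
    exact nuM_eq Q z R X lam (V * G) (hzR.trans hRX) hRX hsupp hlamQ n n' hn hn' h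
  · -- correlations
    intro m hm t y Y a Δ s hY hs hQs2 ht hΔ hΔs htt
    refine le_trans ?_ hηη
    have hmM : m ≤ M := hm.trans hMM
    have hQ0 : (0 : ℝ) < Q := by exact_mod_cast hQ1
    have hXY : (X : ℝ) ≤ (Y : ℝ) / Q := by
      rw [le_div_iff₀ hQ0]
      exact_mod_cast hY
    have hY0 : (0 : ℝ) < (Y : ℝ) / Q := lt_of_lt_of_le hX0 hXY
    rw [sum_nuM', expand2 Q z y Y a R lam (fun d hd => ⟨(hsupp d hd).1, (hsupp d hd).2.1⟩) t ht]
    have hsupp' : ∀ d, lam d ≠ 0 → 1 ≤ d ∧ d ≤ R ∧ ∀ p : ℕ, p.Prime → p ∣ d → z < p := by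
      intro d hd
      have := hsupp d hd
      exact ⟨this.1, this.2.1, this.2.2.2⟩
    have hloc := hs₀ m s (by
      refine le_trans ?_ hs
      exact (hs1m m hmM).trans ((le_max_right _ _).trans (le_max_right _ _))) Q hQs2
      (fun p => (OmT t p).card) Δ hΔ hΔs z (fun p _ => card_OmT_le t p) (by
        intro p hp hpΔ
        unfold PS at hp
        rw [mem_filter, mem_Icc] at hp
        apply card_OmT_eq t hp.2.1.pos
        intro i j hij hd
        exact hpΔ (htt i j hij p hp.2.1 ((hp.1.2.trans hzR).trans hRX) hp.2.2 hd).1)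
    rw [← hV] at hloc
    obtain ⟨Vu, hVu⟩ : ∃ Vu, Vu = ∏ p ∈ PS Q z, (1 - ((OmT t p).card : ℝ) / p) := ⟨_, rfl⟩
    rw [← hVu] at hloc
    have hVu0 : 0 ≤ Vu := aux6 Vu (V ^ m) η hloc hη1 (by positivity)
    have hcorr := corr m R z lam (by omega) hsupp' hlamb
      (fun x => cn' Q z y Y a t x) ((Y : ℝ) / Q * Vu) ((1 / 2 : ℝ) ^ b)
      (((2 : ℝ) ^ 2 ^ J) ^ (C * b)) (by positivity) (by positivity) (by positivity)
      (by
        intro x hx hcop
        rw [hVu]
        subst hz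
        refine cnt_cop' C b Q J y Y a m R t lam hQ1 hsupp' hlamQ ?_ x hx hcop
        intro D v hD hDp s' hs'
        exact hC m b Q (by
            refine le_trans ?_ hb1
            gcongr) (fun p hp hpC => hs0C p hp (hpC.trans (by gcongr))) (OmT t) J D v y Y hD hDp
            (fun p _ => ⟨card_OmT_le t p, OmT_lt t⟩) s' hs')
      (by
        intro x hx hcop
        refine cnt_ncop3 Q E z y Y a m R t lam hsupp' hlamQE ?_ x hx hcop
        intro i j hij p hp hpR hpQ hpd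
        rcases (htt i j hij p hp (hpR.trans hRX) hpQ hpd).2 with h6 | h6
        · left
          have := h6.trans hez.le
          exact_mod_cast this
        · right; exact h6)
    rw [← hG] at hcorr
    have hRX2 : (R : ℝ) ^ (2 * m) ≤ Real.exp (l / 16) := by
      calc (R : ℝ) ^ (2 * m) ≤ Real.exp (l / (32 * M)) ^ (2 * m) := pow_le_pow_left₀ hR0.le hRle _
        _ = Real.exp ((2 * m : ℕ) * (l / (32 * M))) := by rw [Real.exp_nat_mul]
        _ ≤ Real.exp (l / 16) := by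
          apply Real.exp_le_exp.2
          exact aux7 l M m (by exact_mod_cast hmM) hl0 hMr0
    have hEe : ((2 : ℝ) ^ 2 ^ J) ^ (C * b) ≤ Real.exp (l / 8) := by
      rw [← hzr, pow_eq_exp z hz0]
      apply Real.exp_le_exp.2
      push_cast
      linarith
    have hlR3' : 0 ≤ Real.log R := hlR0.le
    exact final_real m M hmM ((Y : ℝ) / Q) V G Vu ((1 + Real.log R) ^ 3) _ z ((1 / 2 : ℝ) ^ b)
      (((2 : ℝ) ^ 2 ^ J) ^ (C * b)) ((R : ℝ) ^ (2 * m)) η ((1 + l) ^ 3 * (CS * l)) (l ^ (B1 + 2)) hY0 hV0 hG0 hη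
      hη1 hz0 (by positivity) (by positivity) (by positivity) (by positivity) hloc hcorr
      (by
        rw [div_eq_mul_one_div]
        have e3 : 0 ≤ 1 / G := by positivity
        gcongr)
      (aux8 l CS hb11 hCS1)
      hVGinv (one_le_pow₀ (by linarith))
      (by
        refine le_trans ?_ hb6
        have e1 : 1 / (z : ℝ) ≤ Real.exp (-Real.sqrt l) := by
          rw [Real.exp_neg, one_div]
          exact inv_anti₀ (Real.exp_pos _) hez.le
        gcongr)
      hb5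
      (by
        refine le_trans ?_ hb7
        have e1 : (R : ℝ) ^ (2 * m) * ((2 : ℝ) ^ 2 ^ J) ^ (C * b) / ((Y : ℝ) / Q) ≤
            Real.exp (-(13 / 16 * l)) := by
          rw [div_le_iff₀ hY0]
          refine le_trans ?_ (mul_le_mul_of_nonneg_left hXY (Real.exp_pos _).le)
          rw [← hXe, ← Real.exp_add]
          calc (R : ℝ) ^ (2 * m) * ((2 : ℝ) ^ 2 ^ J) ^ (C * b) ≤ Real.exp (l / 16) * Real.exp (l / 8) := by
                gcongr
            _ = Real.exp (-(13 / 16 * l) + l) := by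
                rw [← Real.exp_add]
                congr 1
                ring
        gcongr)

end Pool.Agent.Helper51.UV
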