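import Pool.Agent.Helper51.UV.Ty

/-!
# Progressions of arbitrary modulus and in arbitrary position
-/

set_option autoImplicit false

open Finset Filter

namespace Pool.Agent.Helper51.UV

/-- the average of the number of the elements prime to `K` over the translates -/
theorem avg_cop (A : Finset ℕ) (f : ℕ → ℕ) (K : ℕ) (hK : 1 ≤ K) :
    ∃ w, (A.card : ℝ) * ((K.totient : ℝ) / K) ≤
      ((A.filter (fun n => Nat.Coprime K (f n + w))).card : ℝ) := by
  classical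
  have hK0 : (0 : ℝ) < K := by exact_mod_cast hK
  by_contra hcon
  push Not at hcon
  have h1 : ∑ w ∈ range K, ((A.filter (fun n => Nat.Coprime K (f n + w))).card : ℝ) =
      A.card * K.totient := by
    have h2 : ∑ w ∈ range K, (A.filter (fun n => Nat.Coprime K (f n + w))).card =
        ∑ n ∈ A, ((range K).filter (fun w => Nat.Coprime K (f n + w))).card := by
      simp only [card_filter]
      exact sum_comm
    have h3 : ∀ n ∈ A, ((range K).filter (fun w => Nat.Coprime K (f n + w))).card = K.totient := by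
      intro n _
      rw [← Nat.filter_coprime_Ico_eq_totient K (f n)]
      refine card_bij (fun w _ => f n + w) ?_ ?_ ?_
      · intro w hw
        rw [mem_filter, mem_range] at hw
        rw [mem_filter, mem_Ico]
        exact ⟨⟨by omega, by omega⟩, hw.2⟩
      · intro w _ w' _ h
        omega
      · intro v hv
        rw [mem_filter, mem_Ico] at hv
        refine ⟨v - f n, ?_, by omega⟩
        rw [mem_filter, mem_range]
        refine ⟨by omega, ?_⟩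
        rw [Nat.add_sub_cancel' hv.1.1]
        exact hv.2
    rw [sum_congr rfl h3, sum_const, smul_eq_mul] at h2
    exact_mod_cast h2
  have h4 : ∑ w ∈ range K, ((A.filter (fun n => Nat.Coprime K (f n + w))).card : ℝ) <
      ∑ _w ∈ range K, (A.card : ℝ) * ((K.totient : ℝ) / K) :=
    sum_lt_sum_of_nonempty (nonempty_range_iff.2 (by omega)) fun w _ => hcon w
  rw [h1, sum_const, card_range, nsmul_eq_mul] at h4
  have h5 : (K : ℝ) * ((A.card : ℝ) * ((K.totient : ℝ) / K)) = A.card * K.totient := by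
    field_simp
  linarith

theorem tot_ratio (a b : ℕ) (hb : b ≠ 0) (hab : a ∣ b) :
    (b.totient : ℝ) / b ≤ (a.totient : ℝ) / a := by
  have ha : a ≠ 0 := fun h => hb (by rw [h] at hab; exact zero_dvd_iff.1 hab)
  have ha0 : (0 : ℝ) < a := by exact_mod_cast Nat.pos_of_ne_zero ha
  have hb0 : (0 : ℝ) < b := by exact_mod_cast Nat.pos_of_ne_zero hb
  have hf : ∀ n : ℕ, (n.totient : ℝ) = n * ∏ p ∈ n.primeFactors, (1 - (p : ℝ)⁻¹) := by
    intro n
    have := Nat.totient_eq_mul_prod_factors n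
    have h2 : ((n.totient : ℚ) : ℝ) = ((n * ∏ p ∈ n.primeFactors, (1 - (p : ℚ)⁻¹) : ℚ) : ℝ) := by
      rw [this]
    push_cast at h2
    exact h2
  rw [hf a, hf b, mul_div_cancel_left₀ _ ha0.ne', mul_div_cancel_left₀ _ hb0.ne']
  have h01 : ∀ p ∈ b.primeFactors, 0 ≤ 1 - (p : ℝ)⁻¹ ∧ 1 - (p : ℝ)⁻¹ ≤ 1 := by
    intro p hp
    have h1 := (Nat.prime_of_mem_primeFactors hp).one_lt
    have h2 : (1 : ℝ) ≤ p := by exact_mod_cast h1.le
    have h3 : (p : ℝ)⁻¹ ≤ 1 := inv_le_one_of_one_le₀ h2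
    have h4 : 0 ≤ (p : ℝ)⁻¹ := by positivity
    constructor <;> linarith
  have hsub := Nat.primeFactors_mono hab hb
  rw [← prod_sdiff hsub]
  have h5 : ∏ p ∈ b.primeFactors \ a.primeFactors, (1 - (p : ℝ)⁻¹) ≤ 1 :=
    prod_le_one (fun p hp => (h01 p (mem_sdiff.1 hp).1).1) (fun p hp => (h01 p (mem_sdiff.1 hp).1).2)
  have h6 : 0 ≤ ∏ p ∈ a.primeFactors, (1 - (p : ℝ)⁻¹) :=
    prod_nonneg fun p hp => (h01 p (hsub hp)).1
  nlinarith

open Classical in
/-- the translate -/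
theorem ex_w (k l' W : ℕ) (A : Finset ℕ) (f : ℕ → ℕ) (hk : 1 ≤ k) : ∃ w : ℕ, 1 ≤ w ∧
    (A.card : ℝ) * ((k.totient : ℝ) / k) ≤
      ((A.filter (fun n => ∀ q : ℕ, q.Prime → q ≤ W → q ∣ k → ¬ q ∣ f n + w)).card : ℝ) ∧
    ∀ q : ℕ, q.Prime → q ≤ W → ¬ q ∣ k → (q : ℤ) ∣ k * w - l' := by
  obtain ⟨F₁, hF₁⟩ : ∃ F₁, F₁ = (range (W + 1)).filter (fun q => q.Prime ∧ q ∣ k) := ⟨_, rfl⟩
  obtain ⟨F₂, hF₂⟩ : ∃ F₂, F₂ = (range (W + 1)).filter (fun q => q.Prime ∧ ¬ q ∣ k) := ⟨_, rfl⟩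
  obtain ⟨K₁, hK₁⟩ : ∃ K₁, K₁ = ∏ q ∈ F₁, q := ⟨_, rfl⟩
  obtain ⟨K₂, hK₂⟩ : ∃ K₂, K₂ = ∏ q ∈ F₂, q := ⟨_, rfl⟩
  have hm₁ : ∀ q, q ∈ F₁ ↔ q ≤ W ∧ q.Prime ∧ q ∣ k := by
    intro q
    rw [hF₁, mem_filter, mem_range, Nat.lt_succ_iff]
  have hm₂ : ∀ q, q ∈ F₂ ↔ q ≤ W ∧ q.Prime ∧ ¬ q ∣ k := by
    intro q
    rw [hF₂, mem_filter, mem_range, Nat.lt_succ_iff]
  have hK₁0 : K₁ ≠ 0 := by
    rw [hK₁, prod_ne_zero_iff]
    intro q hq
    exact ((hm₁ q).1 hq).2.1.ne_zero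
  have hK₂0 : K₂ ≠ 0 := by
    rw [hK₂, prod_ne_zero_iff]
    intro q hq
    exact ((hm₂ q).1 hq).2.1.ne_zero
  have hK₁k : K₁ ∣ k := by
    rw [hK₁]
    apply Finset.prod_primes_dvd
    · intro q hq
      exact ((hm₁ q).1 hq).2.1.prime
    · intro q hq
      exact ((hm₁ q).1 hq).2.2
  have hkK₂ : Nat.Coprime k K₂ := by
    rw [hK₂]
    apply Nat.Coprime.prod_right
    intro q hq
    have h1 := (hm₂ q).1 hq
    exact ((Nat.Prime.coprime_iff_not_dvd h1.2.1).2 h1.2.2).symm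
  have hco : Nat.Coprime K₁ K₂ := hkK₂.coprime_dvd_left hK₁k
  obtain ⟨w₁, hw₁⟩ := avg_cop A f K₁ (Nat.pos_of_ne_zero hK₁0)
  obtain ⟨w₂, -, hw₂⟩ := Nat.exists_mul_mod_eq_of_coprime l' hkK₂ hK₂0
  obtain ⟨v, hv₁, hv₂⟩ := Nat.chineseRemainder hco w₁ w₂
  have hq₁ : ∀ q : ℕ, q.Prime → q ≤ W → q ∣ k → q ∣ K₁ := by
    intro q hq hqW hqk
    rw [hK₁]
    exact dvd_prod_of_mem _ ((hm₁ q).2 ⟨hqW, hq, hqk⟩)
  have hq₂ : ∀ q : ℕ, q.Prime → q ≤ W → ¬ q ∣ k → q ∣ K₂ := by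
    intro q hq hqW hqk
    rw [hK₂]
    exact dvd_prod_of_mem _ ((hm₂ q).2 ⟨hqW, hq, hqk⟩)
  refine ⟨v + K₁ * K₂, ?_, ?_, ?_⟩
  · have : 0 < K₁ * K₂ := Nat.pos_of_ne_zero (mul_ne_zero hK₁0 hK₂0)
    omega
  · have h1 : (A.card : ℝ) * ((k.totient : ℝ) / k) ≤ A.card * ((K₁.totient : ℝ) / K₁) :=
      mul_le_mul_of_nonneg_left (tot_ratio K₁ k (by omega) hK₁k) (Nat.cast_nonneg _)
    refine h1.trans (hw₁.trans ?_)
    have h2 : A.filter (fun n => Nat.Coprime K₁ (f n + w₁)) ⊆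
        A.filter (fun n => ∀ q : ℕ, q.Prime → q ≤ W → q ∣ k → ¬ q ∣ f n + (v + K₁ * K₂)) := by
      intro n hn
      rw [mem_filter] at hn ⊢
      refine ⟨hn.1, fun q hq hqW hqk hqd => ?_⟩
      have h3 := hq₁ q hq hqW hqk
      have h4 : f n + (v + K₁ * K₂) ≡ f n + w₁ [MOD K₁] := by
        have h5 : v + K₁ * K₂ ≡ w₁ + 0 [MOD K₁] :=
          hv₁.add ((Nat.modEq_zero_iff_dvd).2 (dvd_mul_right _ _))
        exact (Nat.ModEq.refl (f n)).add h5
      have h6 : q ∣ f n + w₁ := ((h4.of_dvd h3).dvd_iff dvd_rfl).1 hqd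
      have h7 := Nat.dvd_gcd h3 h6
      rw [hn.2] at h7
      exact hq.one_lt.ne' (Nat.dvd_one.1 h7)
    exact_mod_cast card_le_card h2
  · intro q hq hqW hqk
    have h3 := hq₂ q hq hqW hqk
    have h4 : k * (v + K₁ * K₂) ≡ l' [MOD q] := by
      have h5 : v + K₁ * K₂ ≡ w₂ + 0 [MOD K₂] :=
        hv₂.add ((Nat.modEq_zero_iff_dvd).2 (dvd_mul_left _ _))
      have h6 : k * (v + K₁ * K₂) ≡ l' [MOD K₂] := (h5.mul_left k).trans hw₂
      exact h6.of_dvd h3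
    have h7 := (Nat.modEq_iff_dvd.1 h4.symm)
    push_cast at h7 ⊢
    exact h7

theorem ev_z (ε η : ℝ) (hε1 : ε < 1) (X₀ : ℕ) : ∃ z₀ : ℝ, ∀ z : ℝ, z₀ ≤ z →
    2 ≤ Real.log z ∧ 2 ≤ z ∧ (X₀ : ℝ) ≤ z ∧ 4 / η * Real.log z ≤ z ^ (1 - ε) := by
  have h1 : ∀ᶠ z : ℝ in atTop, 4 / η * Real.log z ≤ z ^ (1 - ε) := by
    have h2 := (isLittleO_log_rpow_atTop (show 0 < 1 - ε by linarith)).bound
      (c := 1 / (|4 / η| + 1)) (by positivity)
    filter_upwards [h2, eventually_ge_atTop 1] with x hx hx1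
    have h3 : 0 ≤ Real.log x := Real.log_nonneg hx1
    have h4 : 0 ≤ x ^ (1 - ε) := by positivity
    rw [Real.norm_of_nonneg h3, Real.norm_of_nonneg h4, div_mul_eq_mul_div, one_mul,
      le_div_iff₀ (by positivity)] at hx
    have h5 : 4 / η ≤ |4 / η| := le_abs_self _
    nlinarith
  have h2 := Real.tendsto_log_atTop.eventually_ge_atTop 2
  obtain ⟨z₀, h⟩ := eventually_atTop.1 (h2.and ((eventually_ge_atTop (2 : ℝ)).and
    ((eventually_ge_atTop (X₀ : ℝ)).and h1)))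
  exact ⟨z₀, h⟩

open Classical in
/-- **All but few points have many dilates.** -/
theorem bt (r : ℕ) (ε η : ℝ) (hε : 0 < ε) (hε1 : ε < 1) (hη : 0 < η) :
    ∃ (B : ℕ) (z₀ : ℝ), ∀ (k : ℕ) (l : ℤ) (x y : ℝ), 1 ≤ k → z₀ ≤ y / k →
      ∀ S : Finset ℕ, (∀ n ∈ S, x - y < n ∧ (n : ℝ) ≤ x ∧ (n : ℤ) ≡ l [ZMOD k] ∧
        (n.Prime ∨ ∀ q : ℕ, q.Prime → q ∣ n → (y / k) ^ ε < q)) →
      ∀ (T : Finset ℤ) (H D : ℕ), T.card ≤ r → (∀ t ∈ T, |t| ≤ H) → 1 ≤ H →
        Real.log (y / k) ^ B ≤ D → (H : ℝ) ^ ε ≤ D → (D : ℝ) * H ≤ (y / k) ^ (1 - ε) →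
        ((S.filter (fun p : ℕ => (((Icc 1 D).filter (fun d : ℕ => ∀ t ∈ T, ∃ q ∈ S,
          (q : ℤ) = p + k * d * t)).card : ℝ) < (D : ℝ) ^ (1 - ε))).card : ℝ) ≤
          η * (y / (k.totient * Real.log (y / k))) := by
  obtain ⟨B₁, X₀, h⟩ := typV r (ε / 2) (η / 8) (by positivity) (by linarith) (by positivity)
  obtain ⟨z₀, hz₀⟩ := ev_z ε η hε1 X₀
  refine ⟨2 * B₁, z₀, ?_⟩
  intro k l x y hk hz S hS T H D hTr hTH hH hBD hHD hDz
  have hk0 : (0 : ℝ) < k := by exact_mod_cast hk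
  obtain ⟨z, hzd⟩ : ∃ z, z = y / k := ⟨_, rfl⟩
  rw [← hzd] at hz hBD hDz ⊢
  simp only [← hzd] at hS
  obtain ⟨hl2, hz2, hzX, hzl⟩ := hz₀ z hz
  have hy : y = z * k := by rw [hzd]; field_simp
  have hz0 : 0 < z := by linarith
  have hz1 : 1 ≤ z := by linarith
  have hφ0 : (0 : ℝ) < k.totient := by exact_mod_cast Nat.totient_pos.2 hk
  have hφk : (k.totient : ℝ) ≤ k := by exact_mod_cast Nat.totient_le k
  by_contra hcon
  push Not at hcon
  obtain ⟨Bd, hBd⟩ : ∃ Bd, Bd = S.filter (fun p : ℕ => (((Icc 1 D).filter (fun d : ℕ =>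
    ∀ t ∈ T, ∃ q ∈ S, (q : ℤ) = p + k * d * t)).card : ℝ) < (D : ℝ) ^ (1 - ε)) := ⟨_, rfl⟩
  rw [← hBd] at hcon
  obtain ⟨M, hM⟩ : ∃ M, M = y / (k.totient * Real.log z) := ⟨_, rfl⟩
  rw [← hM] at hcon
  have hMz : M * ((k.totient : ℝ) / k) = z / Real.log z := by
    rw [hM, hy]
    have : Real.log z ≠ 0 := by linarith
    field_simp
  have hzM : z / Real.log z ≤ M := by
    rw [hM, hy, div_le_div_iff₀ (by linarith) (by positivity)]
    have h1 : 0 ≤ z * Real.log z := by positivity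
    nlinarith
  -- the rough elements
  obtain ⟨W, hW⟩ : ∃ W, W = ⌊z ^ ε⌋₊ := ⟨_, rfl⟩
  have hWz : (W : ℝ) ≤ z ^ ε := by rw [hW]; exact Nat.floor_le (by positivity)
  obtain ⟨B', hB'⟩ : ∃ B', B' = Bd.filter (fun n => W < n) := ⟨_, rfl⟩
  have hB'S : ∀ n ∈ B', n ∈ S ∧ n ∈ Bd ∧ W < n := by
    intro n hn
    rw [hB', mem_filter] at hn
    have h1 := hn.1
    rw [hBd, mem_filter] at h1
    exact ⟨h1.1, hn.1, hn.2⟩
  have hrough : ∀ n ∈ B', ∀ q : ℕ, q.Prime → q ∣ n → W < q := by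
    intro n hn q hq hqn
    obtain ⟨h1, h2, h3⟩ := hB'S n hn
    rcases (hS n h1).2.2.2 with h4 | h4
    · rw [(Nat.prime_dvd_prime_iff_eq hq h4).1 hqn]
      exact h3
    · have h5 : (W : ℝ) < q := lt_of_le_of_lt hWz (h4 q hq hqn)
      exact_mod_cast h5
  have hB'c : η / 2 * M ≤ B'.card := by
    have h1 : Bd.card ≤ B'.card + (W + 1) := by
      have h2 : Bd ⊆ B' ∪ range (W + 1) := by
        intro n hn
        rw [mem_union, hB', mem_filter, mem_range]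
        by_cases h3 : W < n
        · exact Or.inl ⟨hn, h3⟩
        · exact Or.inr (by omega)
      refine (card_le_card h2).trans ((card_union_le _ _).trans ?_)
      rw [card_range]
    have h2 : (Bd.card : ℝ) ≤ B'.card + (W + 1) := by exact_mod_cast h1
    have h3 : (1 : ℝ) ≤ z ^ ε := Real.one_le_rpow hz1 hε.le
    have h4 : 2 * z ^ ε ≤ η / 2 * (z / Real.log z) := by
      have h5 : z ^ ε * (4 / η * Real.log z) ≤ z := by
        calc z ^ ε * (4 / η * Real.log z) ≤ z ^ ε * z ^ (1 - ε) :=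
              mul_le_mul_of_nonneg_left hzl (by positivity)
          _ = z := by
              rw [← Real.rpow_add hz0]
              have : ε + (1 - ε) = 1 := by ring
              rw [this, Real.rpow_one]
      rw [← mul_div_assoc, le_div_iff₀ (by linarith)]
      calc 2 * z ^ ε * Real.log z = η / 2 * (z ^ ε * (4 / η * Real.log z)) := by
            field_simp
            ring
        _ ≤ η / 2 * z := mul_le_mul_of_nonneg_left h5 (by positivity)
    have h5 : η / 2 * (z / Real.log z) ≤ η / 2 * M := mul_le_mul_of_nonneg_left hzM (by positivity)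
    linarith
  have hM0 : 0 < M := lt_of_lt_of_le (by positivity) hzM
  have hB'ne : B'.Nonempty := by
    rw [← card_pos]
    have h1 : (0 : ℝ) < B'.card := lt_of_lt_of_le (by positivity) hB'c
    exact_mod_cast h1
  obtain ⟨n₀, hn₀, hmin⟩ := exists_min_image B' id hB'ne
  simp only [id] at hmin
  have hmod : ∀ n ∈ B', n % k = n₀ % k := by
    intro n hn
    have h1 := (hS n (hB'S n hn).1).2.2.1
    have h2 := (hS n₀ (hB'S n₀ hn₀).1).2.2.1
    exact (Int.natCast_modEq_iff.1 (h1.trans h2.symm))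
  obtain ⟨w, hw1, hwA, hwq⟩ := ex_w k (n₀ % k) W B' (fun n => n / k) hk
  obtain ⟨B'', hB''⟩ : ∃ B'', B'' = B'.filter (fun n => ∀ q : ℕ, q.Prime → q ≤ W → q ∣ k →
    ¬ q ∣ n / k + w) := ⟨_, rfl⟩
  have hwA' : (B'.card : ℝ) * ((k.totient : ℝ) / k) ≤ (B''.card : ℝ) := by
    rw [hB'']
    exact hwA
  have hB''s : ∀ n ∈ B'', n ∈ B' := by
    intro n hn
    rw [hB''] at hn
    exact (mem_filter.1 hn).1
  have hinj : Set.InjOn (fun n => n / k + w) (B' : Set ℕ) := by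
    intro n hn n' hn' h
    simp only at h
    have h1 : n / k = n' / k := by omega
    rw [← Nat.div_add_mod n k, ← Nat.div_add_mod n' k, h1, hmod n hn, hmod n' hn']
  obtain ⟨P, hP⟩ : ∃ P, P = B''.image (fun n => n / k + w) := ⟨_, rfl⟩
  have hPc : P.card = B''.card := by
    rw [hP]
    exact card_image_of_injOn (hinj.mono fun n hn => hB''s n hn)
  obtain ⟨X, hX⟩ : ∃ X, X = ⌊z⌋₊ + 1 := ⟨_, rfl⟩
  have hzX' : z ≤ X := by
    rw [hX]
    push_cast
    exact (Nat.lt_floor_add_one z).le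
  have hX2z : (X : ℝ) ≤ 2 * z := by
    rw [hX]
    push_cast
    have := Nat.floor_le hz0.le
    linarith
  have hX1 : (1 : ℝ) ≤ X := hz1.trans hzX'
  have hX0 : (0 : ℝ) < X := by linarith
  obtain ⟨u, hu⟩ : ∃ u, u = n₀ / k + w - 1 := ⟨_, rfl⟩
  have hPsub : P ⊆ Ioc u (u + X) := by
    intro v hv
    rw [hP, mem_image] at hv
    obtain ⟨n, hn, rfl⟩ := hv
    have hn' := hB''s n hn
    have h1 : n₀ ≤ n := hmin n hn'
    have h2 : n₀ / k ≤ n / k := Nat.div_le_div_right h1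
    have h3 : n / k - n₀ / k ≤ ⌊z⌋₊ := by
      apply Nat.le_floor
      rw [Nat.cast_sub h2, hzd, le_div_iff₀ hk0]
      have h4 := hS n (hB'S n hn').1
      have h5 := hS n₀ (hB'S n₀ hn₀).1
      have h6 : ((k * (n / k) + n % k : ℕ) : ℝ) = n := by exact_mod_cast Nat.div_add_mod n k
      have h7 : ((k * (n₀ / k) + n₀ % k : ℕ) : ℝ) = n₀ := by exact_mod_cast Nat.div_add_mod n₀ k
      rw [hmod n hn'] at h6
      push_cast at h6 h7
      linarith [h4.2.1, h5.1]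
    obtain ⟨m₀, hm₀⟩ : ∃ m₀, m₀ = n₀ / k := ⟨_, rfl⟩
    obtain ⟨m, hm⟩ : ∃ m, m = n / k := ⟨_, rfl⟩
    rw [← hm₀, ← hm] at h2 h3
    rw [← hm₀] at hu
    simp only [← hm]
    rw [mem_Ioc, hu, hX]
    constructor <;> omega
  have hPrough : ∀ p ∈ P, ∀ q : ℕ, q.Prime → q ∣ p → (X : ℝ) ^ (ε / 2) < q := by
    intro v hv q hq hqv
    rw [hP, mem_image] at hv
    obtain ⟨n, hn, rfl⟩ := hv
    have hn' := hB''s n hn
    by_contra hcq
    push Not at hcq
    have hqW : q ≤ W := by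
      rw [hW]
      apply Nat.le_floor
      refine hcq.trans ?_
      calc (X : ℝ) ^ (ε / 2) ≤ (z ^ 2) ^ (ε / 2) := by
            apply Real.rpow_le_rpow hX0.le _ (by positivity)
            nlinarith
        _ = z ^ ε := by
            rw [← Real.rpow_natCast, ← Real.rpow_mul hz0.le]
            congr 1
            push_cast
            ring
    by_cases hqk : q ∣ k
    · rw [hB'', mem_filter] at hn
      exact hn.2 q hq hqW hqk hqv
    · have h1 := hwq q hq hqW hqk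
      have h2 : (q : ℤ) ∣ ((n / k + w : ℕ) : ℤ) := Int.natCast_dvd_natCast.2 hqv
      have h3 : (n : ℤ) = k * ((n / k + w : ℕ) : ℤ) - (k * w - (n₀ % k : ℕ)) := by
        have h4 : ((k * (n / k) + n % k : ℕ) : ℤ) = n := by exact_mod_cast Nat.div_add_mod n k
        rw [hmod n hn'] at h4
        push_cast at h4 ⊢
        linarith
      have h5 : (q : ℤ) ∣ (n : ℤ) := by
        rw [h3]
        exact dvd_sub (h2.mul_left _) h1
      have h6 := hrough n hn' q hq (Int.natCast_dvd_natCast.1 h5)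
      omega
  have hlogX : Real.log z ≤ Real.log X := Real.log_le_log hz0 hzX'
  have hPd : η / 8 * (X / Real.log X) ≤ P.card := by
    rw [hPc]
    refine le_trans ?_ hwA'
    have h1 : η / 2 * M * ((k.totient : ℝ) / k) ≤ B'.card * ((k.totient : ℝ) / k) :=
      mul_le_mul_of_nonneg_right hB'c (by positivity)
    refine le_trans ?_ h1
    rw [mul_assoc, hMz]
    have h2 : (X : ℝ) / Real.log X ≤ 2 * z / Real.log z :=
      div_le_div₀ (by positivity) hX2z (by linarith) hlogX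
    have h3 : 2 * z / Real.log z = 2 * (z / Real.log z) := by ring
    have h4 : 0 ≤ z / Real.log z := by positivity
    rw [h3] at h2
    nlinarith
  have hD1 : (1 : ℝ) ≤ D := (one_le_pow₀ (by linarith)).trans hBD
  obtain ⟨v, hvP, hv⟩ := h X H D u (by
      have h1 : (X₀ : ℝ) ≤ X := hzX.trans hzX'
      exact_mod_cast h1) hH
    (by
      refine le_trans ?_ hBD
      rw [pow_mul]
      have h1 : Real.log X ≤ Real.log z ^ 2 := by
        calc Real.log X ≤ Real.log (z * z) := by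
              apply Real.log_le_log hX0
              nlinarith
          _ = 2 * Real.log z := by rw [Real.log_mul hz0.ne' hz0.ne']; ring
          _ ≤ Real.log z ^ 2 := by nlinarith
      exact pow_le_pow_left₀ (Real.log_nonneg hX1) h1 _)
    (by
      refine le_trans ?_ hHD
      exact Real.rpow_le_rpow_of_exponent_le (by exact_mod_cast hH) (by linarith))
    (by
      refine hDz.trans ?_
      calc z ^ (1 - ε) ≤ (X : ℝ) ^ (1 - ε) := Real.rpow_le_rpow hz0.le hzX' (by linarith)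
        _ ≤ (X : ℝ) ^ (1 - ε / 2) := Real.rpow_le_rpow_of_exponent_le hX1 (by linarith))
    P hPsub hPrough hPd T hTr hTH
  rw [hP, mem_image] at hvP
  obtain ⟨n, hn, rfl⟩ := hvP
  have hn' := hB''s n hn
  have hnBd := (hB'S n hn').2.1
  rw [hBd, mem_filter] at hnBd
  have h1 : (D : ℝ) ^ (1 - ε) ≤ (D : ℝ) ^ (1 - ε / 2) :=
    Real.rpow_le_rpow_of_exponent_le hD1 (by linarith)
  have h2 : ((Icc 1 D).filter (fun d : ℕ => ∀ t ∈ T, ∃ q ∈ P,
      (q : ℤ) = ((n / k + w : ℕ) : ℤ) + d * t)).card ≤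
      ((Icc 1 D).filter (fun d : ℕ => ∀ t ∈ T, ∃ q ∈ S, (q : ℤ) = n + k * d * t)).card := by
    apply card_le_card
    intro d hd
    rw [mem_filter] at hd ⊢
    refine ⟨hd.1, fun t ht => ?_⟩
    obtain ⟨q, hq, hqe⟩ := hd.2 t ht
    rw [hP, mem_image] at hq
    obtain ⟨n', hn'', rfl⟩ := hq
    refine ⟨n', (hB'S n' (hB''s n' hn'')).1, ?_⟩
    have h3 : ((k * (n / k) + n % k : ℕ) : ℤ) = n := by exact_mod_cast Nat.div_add_mod n k
    have h4 : ((k * (n' / k) + n' % k : ℕ) : ℤ) = n' := by exact_mod_cast Nat.div_add_mod n' k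
    rw [hmod n hn'] at h3
    rw [hmod n' (hB''s n' hn'')] at h4
    push_cast at h3 h4 hqe
    have h5 : ((n' : ℤ) / k) = (n : ℤ) / k + d * t := by linarith
    rw [h5] at h4
    have h6 : (k : ℤ) * ((n : ℤ) / k + d * t) = k * ((n : ℤ) / k) + k * d * t := by ring
    linarith
  have h3 : (((Icc 1 D).filter (fun d : ℕ => ∀ t ∈ T, ∃ q ∈ P,
      (q : ℤ) = ((n / k + w : ℕ) : ℤ) + d * t)).card : ℝ) ≤
      (((Icc 1 D).filter (fun d : ℕ => ∀ t ∈ T, ∃ q ∈ S, (q : ℤ) = n + k * d * t)).card : ℝ) := by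
    exact_mod_cast h2
  have h4 := hnBd.2
  have h5 := hv
  have h6 : (D : ℝ) ^ (1 - ε / 2) ≤ (((Icc 1 D).filter (fun d : ℕ => ∀ t ∈ T, ∃ q ∈ P,
      (q : ℤ) = ((n / k + w : ℕ) : ℤ) + d * t)).card : ℝ) := by
    refine h5.trans (le_of_eq ?_)
    congr!
  linarith

end Pool.Agent.Helper51.UV
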