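import Pool.Agent.Helper51.UV.Wo

/-!
# The relative simplex theorem on average over a family of weights with bounded moments
-/

set_option autoImplicit false

open Finset

namespace Pool.Agent.Helper51.UV

open Pool.Agent.Helper51.UD
open Pool.Agent.H602R3.DHJ (av av_const av_mono av_nonneg av_add av_sub av_mul av_sum av_equiv
  av_prod av_comm)
open Pool.Agent.Y727.PSP
open Pool.Agent.Y46.PSP (abs_av_le av_tr av_update)

variable {r N : ℕ}

open Classical in
theorem mainM (hr : 1 ≤ r) {β : Fin r → ℤ}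
    (hβ : Function.Injective (Fin.cons 0 β : Fin (r + 1) → ℤ)) {Ω : Type} {S : Finset Ω} {M : ℕ}
    [NeZero N] {F : Ω → (Fin r → ZMod N) → ℝ} {η η' L : ℝ} (h : MajM β S F M η' L) (hL : 1 ≤ L)
    (hη' : 0 ≤ η') (hX : S.Nonempty) (hM : 2 * MM r ≤ M) (hη : 0 < η)
    (h1 : 3 * η' + 2 * (M : ℝ) ^ 2 * 9 ^ r * L / N ≤ η ^ 2)
    (h2 : 2 ^ (MM r + 1) * (3 * η' + 2 * (M : ℝ) ^ 2 * 9 ^ r * L / N) ≤ η ^ 3) :
    ∑ K ∈ S, |av (F K) - 1| ≤ η * S.card ∧
    ((S.filter (fun K => ¬ (LF (fun (j : Fin (r + 1)) (x : Fin (r + 1) → ZMod N) =>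
      F K (Lx j x)) η ∧ Cube r N (F K) η))).card : ℝ) ≤ η * S.card := by
  have hX' : (0 : ℝ) < S.card := by exact_mod_cast hX.card_pos
  obtain ⟨m, hm⟩ : ∃ m, m = 3 * η' + 2 * (M : ℝ) ^ 2 * 9 ^ r * L / N := ⟨_, rfl⟩
  have hm0 : 0 ≤ m := by rw [hm]; positivity
  have hM1 : 1 ≤ MM r := by
    have : 1 ≤ 2 ^ ((r + 1) * (r + 1)) := Nat.one_le_two_pow
    exact this.trans (MM_b r)
  constructor
  · have h3 := lemCm h hL hη' hX (I := Unit) (by rw [Fintype.card_unit]; omega) _ (goodI β hr hβ)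
    have h4 : ∀ K, av (fun y : Fin r → ZMod N =>
        ∏ i : Unit, F K (AddMonoidHom.id (Fin r → ZMod N) y)) = av (F K) := by
      intro K
      congr 1
      funext y
      simp
    simp_rw [h4] at h3
    have h5 : ∀ K ∈ S, |av (F K) - 1| ≤
        η / 2 + (av (F K) - 1) ^ 2 / (2 * η) := by
      intro K _
      set x := av (F K) - 1
      have h6 : η / 2 + x ^ 2 / (2 * η) = (η ^ 2 + x ^ 2) / (2 * η) := by
        field_simp
      rw [h6, le_div_iff₀ (by positivity)]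
      nlinarith [sq_nonneg (|x| - η), sq_abs x]
    refine (sum_le_sum h5).trans ?_
    rw [sum_add_distrib, sum_const, nsmul_eq_mul, ← sum_div]
    have h6 : (∑ K ∈ S, (av (F K) - 1) ^ 2) / (2 * η) ≤ η / 2 * S.card := by
      rw [div_le_iff₀ (by positivity)]
      calc ∑ K ∈ S, (av (F K) - 1) ^ 2
          ≤ (3 * η' + 2 * (M : ℝ) ^ 2 * 9 ^ r * L / N) * S.card := h3
        _ ≤ η ^ 2 * S.card := mul_le_mul_of_nonneg_right h1 hX'.le
        _ = η / 2 * S.card * (2 * η) := by ring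
    linarith
  · rw [← hm] at h2
    -- the exceptional sets
    set TT : Finset (Finset (Fin (r + 1) × Finset (Fin (r + 1)))) :=
      univ.filter (fun T => ∀ t ∈ T, t.1 ∉ t.2) with hTT
    set PP : Finset (Finset (Finset (Ed r))) :=
      univ.filter (fun P => ∀ ω ∈ P, ω ⊆ OD r) with hPP
    have hone : ∀ T ∈ TT, ∑ K ∈ S, (av (fun y : Fin (r + 1) → ZMod N × ZMod N =>
        ∏ t ∈ T, F K (Lx t.1 (sl t.2 y))) - 1) ^ 2 ≤ m * S.card := by
      intro T hT
      rw [hTT, mem_filter] at hT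
      have hcT : Fintype.card T ≤ (r + 1) * 2 ^ (r + 1) := by
        rw [Fintype.card_coe]
        refine (card_le_univ _).trans (le_of_eq ?_)
        rw [Fintype.card_prod, Fintype.card_fin, Fintype.card_finset, Fintype.card_fin]
      have h3 := lemCm h hL hη' hX (I := T) (by have := hcT.trans (MM_a r); omega) _
        (goodH (N := N) β hr hβ T hT.2)
      have h4 : ∀ K, av (fun y : Fin (r + 1) → ZMod N × ZMod N => ∏ t : T, F K
          (frmH (t : Fin (r + 1) × Finset (Fin (r + 1))) y)) =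
          av (fun y : Fin (r + 1) → ZMod N × ZMod N =>
            ∏ t ∈ T, F K (Lx t.1 (sl t.2 y))) := by
        intro K
        congr 1
        funext y
        exact prod_coe_sort T (fun t => F K (Lx t.1 (sl t.2 y)))
      simp_rw [h4] at h3
      rw [hm]
      exact h3
    have htwo : ∀ P ∈ PP, ∑ K ∈ S, (av (fun y : (Ed r → ZMod N) × (Fin r → ZMod N) =>
        ∏ ω ∈ P, F K (cubeF ω y)) - 1) ^ 2 ≤ m * S.card := by
      intro P hP
      rw [hPP, mem_filter] at hP
      have hcP : Fintype.card P ≤ 2 ^ ((r + 1) * (r + 1)) := by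
        rw [Fintype.card_coe]
        refine (card_le_univ _).trans (le_of_eq ?_)
        rw [Fintype.card_finset, Fintype.card_prod, Fintype.card_fin]
      have h3 := lemCm h hL hη' hX (I := P) (by have := hcP.trans (MM_b r); omega) _
        (goodC (N := N) β hr hβ P hP.2)
      have h4 : ∀ K, av (fun y : (Ed r → ZMod N) × (Fin r → ZMod N) => ∏ ω : P, F K
          (frmC (ω : Finset (Ed r)) y)) =
          av (fun y : (Ed r → ZMod N) × (Fin r → ZMod N) =>
            ∏ ω ∈ P, F K (cubeF ω y)) := by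
        intro K
        congr 1
        funext y
        exact prod_coe_sort P (fun ω => F K (cubeF ω y))
      simp_rw [h4] at h3
      rw [hm]
      exact h3
    obtain ⟨bad1, hbad1⟩ : ∃ bad1, bad1 = S.filter (fun K => ¬ LF (fun (j : Fin (r + 1))
      (x : Fin (r + 1) → ZMod N) => F K (Lx j x)) η) := ⟨_, rfl⟩
    obtain ⟨bad2, hbad2⟩ : ∃ bad2, bad2 = S.filter (fun K => ¬ Cube r N (F K) η) := ⟨_, rfl⟩
    have hsub : S.filter (fun K => ¬ (LF (fun (j : Fin (r + 1)) (x : Fin (r + 1) → ZMod N) =>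
      F K (Lx j x)) η ∧ Cube r N (F K) η)) ⊆ bad1 ∪ bad2 := by
      intro K hK
      rw [mem_filter] at hK
      rw [mem_union, hbad1, hbad2, mem_filter, mem_filter]
      by_cases h3 : LF (fun (j : Fin (r + 1)) (x : Fin (r + 1) → ZMod N) => F K (Lx j x)) η
      · exact Or.inr ⟨hK.1, fun h4 => hK.2 ⟨h3, h4⟩⟩
      · exact Or.inl ⟨hK.1, h3⟩
    have k1 := few S TT _ η m hη hone bad1 (by
      intro K hK
      rw [hbad1, mem_filter] at hK
      have h3 := hK.2
      unfold LF at h3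
      push Not at h3
      obtain ⟨T, hT, h4⟩ := h3
      exact ⟨hK.1, T, by rw [hTT, mem_filter]; exact ⟨mem_univ _, hT⟩, h4⟩)
    have k2 := few S PP _ η m hη htwo bad2 (by
      intro K hK
      rw [hbad2, mem_filter] at hK
      have h3 := hK.2
      unfold Cube at h3
      push Not at h3
      obtain ⟨T, hT, h4⟩ := h3
      exact ⟨hK.1, T, by rw [hPP, mem_filter]; exact ⟨mem_univ _, hT⟩, h4⟩)
    have hTTc : TT.card ≤ 2 ^ MM r := by
      refine (card_le_univ _).trans ?_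
      rw [Fintype.card_finset, Fintype.card_prod, Fintype.card_fin, Fintype.card_finset,
        Fintype.card_fin]
      exact Nat.pow_le_pow_right (by norm_num) (MM_a r)
    have hPPc : PP.card ≤ 2 ^ MM r := by
      refine (card_le_univ _).trans ?_
      rw [Fintype.card_finset, Fintype.card_finset, Fintype.card_prod, Fintype.card_fin]
      exact Nat.pow_le_pow_right (by norm_num) (MM_b r)
    have hmS : 0 ≤ m * S.card := by positivity
    have k3 : (TT.card : ℝ) * (m * S.card) ≤ 2 ^ MM r * (m * S.card) := by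
      apply mul_le_mul_of_nonneg_right _ hmS
      exact_mod_cast hTTc
    have k4 : (PP.card : ℝ) * (m * S.card) ≤ 2 ^ MM r * (m * S.card) := by
      apply mul_le_mul_of_nonneg_right _ hmS
      exact_mod_cast hPPc
    have k5 : ((bad1 ∪ bad2).card : ℝ) ≤ bad1.card + bad2.card := by
      exact_mod_cast card_union_le _ _
    have k6 : ((S.filter (fun K => ¬ (LF (fun (j : Fin (r + 1)) (x : Fin (r + 1) → ZMod N) =>
      F K (Lx j x)) η ∧ Cube r N (F K) η))).card : ℝ) ≤ (bad1 ∪ bad2).card := by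
      exact_mod_cast card_le_card hsub
    have k7 : ((S.filter (fun K => ¬ (LF (fun (j : Fin (r + 1)) (x : Fin (r + 1) → ZMod N) =>
      F K (Lx j x)) η ∧ Cube r N (F K) η))).card : ℝ) * η ^ 2 ≤ η * S.card * η ^ 2 := by
      calc _ ≤ ((bad1.card : ℝ) + bad2.card) * η ^ 2 :=
            mul_le_mul_of_nonneg_right (k6.trans k5) (by positivity)
        _ = bad1.card * η ^ 2 + bad2.card * η ^ 2 := by ring
        _ ≤ 2 ^ MM r * (m * S.card) + 2 ^ MM r * (m * S.card) := by linarith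
        _ = (2 ^ (MM r + 1) * m) * S.card := by rw [pow_succ]; ring
        _ ≤ η ^ 3 * S.card := mul_le_mul_of_nonneg_right h2 hX'.le
        _ = η * S.card * η ^ 2 := by ring
    exact le_of_mul_le_mul_right k7 (by positivity)

/-- a nondegenerate simplex -/
theorem ex_nondegM [NeZero N] (f : (Fin r → ZMod N) → ℝ) (W c : ℝ)
    (hW : av (fun z => f z ^ (r + 1)) ≤ W)
    (hc : c ≤ av (fun x : Fin (r + 1) → ZMod N => ∏ j, f (Lx j x))) (hWN : W < c * N) :
    ∃ x : Fin (r + 1) → ZMod N, ∑ i, x i ≠ 0 ∧ ∀ j, f (Lx j x) ≠ 0 := by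
  classical
  have hN : (0 : ℝ) < N := by exact_mod_cast Nat.pos_of_ne_zero (NeZero.ne N)
  by_contra hcon
  push Not at hcon
  have h1 : av (fun x : Fin (r + 1) → ZMod N => ∏ j, f (Lx j x)) =
      1 / N * av (fun z => f z ^ (r + 1)) := by
    rw [← av_equiv (EP r N).symm, av_prod, ← av_mul]
    congr 1
    funext z
    unfold av
    rw [sum_eq_single (0 : ZMod N), ZMod.card]
    · have h2 : ∀ j, Lx j ((EP r N).symm (z, 0)) = z := by
        intro j
        have h3 : (EP r N).symm (z, 0) = pl z := by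
          rw [Equiv.symm_apply_eq]
          refine Prod.ext rfl ?_
          show (0 : ZMod N) = -∑ i, pl z i
          rw [sum_pl, neg_zero]
        rw [h3, Lx_pl]
      simp only [h2, prod_const, card_univ, Fintype.card_fin]
      ring
    · intro d _ hd
      obtain ⟨j, hj⟩ := hcon ((EP r N).symm (z, d)) (by
        intro h5
        have h6 := (EP r N).apply_symm_apply (z, d)
        have h7 := congrArg Prod.snd h6
        change -∑ i, (EP r N).symm (z, d) i = d at h7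
        rw [h5, neg_zero] at h7
        exact hd h7.symm)
      exact prod_eq_zero (mem_univ j) hj
    · intro h
      exact absurd (mem_univ _) h
  rw [h1] at hc
  have h2 : c * N ≤ av (fun z => f z ^ (r + 1)) := by
    calc c * N ≤ (1 / N * av (fun z => f z ^ (r + 1))) * N := mul_le_mul_of_nonneg_right hc hN.le
      _ = _ := by field_simp
  linarith

/-- the engine -/
theorem engineM (r : ℕ) (hr : 1 ≤ r) (δ : ℝ) (hδ : 0 < δ) : ∃ η c : ℝ, 0 < η ∧ 0 < c ∧
    ∀ (β : Fin r → ℤ), Function.Injective (Fin.cons 0 β : Fin (r + 1) → ℤ) →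
    ∀ {Ω : Type} (N : ℕ) [NeZero N] (S : Finset Ω) (F f : Ω → (Fin r → ZMod N) → ℝ) (L : ℝ)
    (h : ℕ), S.Nonempty → 1 ≤ L → MajM β S F (2 * MM r) η L → L ≤ c * N →
    (∀ K a, 0 ≤ f K a ∧ f K a ≤ F K a) → 2 * h ≤ N → (∀ K a, f K a ≠ 0 → ∀ l, (a l).val < h) →
    δ * S.card ≤ ∑ K ∈ S, av (f K) →
    ∃ G ⊆ S, δ / 2 * S.card ≤ G.card ∧ ∀ K ∈ G, ∃ (z : Fin r → ZMod N) (D : ℤ),
      f K z ≠ 0 ∧ D ≠ 0 ∧ |D| < N ∧ ∀ l, ∃ z', f K z' ≠ 0 ∧ rho β z' = rho β z + D * β l := by
  classical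
  obtain ⟨c₀, η₀, hc₀, hη₀, H⟩ := rsx r hr (δ / 4) (by positivity)
  obtain ⟨M, hM⟩ : ∃ M, M = 2 * MM r := ⟨_, rfl⟩
  have hMM1 : r + 1 ≤ MM r := by
    have h0 : r + 1 ≤ (r + 1) * 2 ^ (r + 1) := Nat.le_mul_of_pos_right _ (by positivity)
    exact h0.trans (MM_a r)
  have hM1 : 1 ≤ M := by omega
  have hM0 : (0 : ℝ) < M := by exact_mod_cast hM1
  obtain ⟨η₁, hη₁⟩ : ∃ η₁, η₁ = min η₀ (δ / 24) := ⟨_, rfl⟩
  have hη₁0 : 0 < η₁ := by rw [hη₁]; exact lt_min hη₀ (by positivity)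
  have hη₁a : η₁ ≤ η₀ := hη₁ ▸ min_le_left _ _
  have hη₁b : η₁ ≤ δ / 24 := hη₁ ▸ min_le_right _ _
  obtain ⟨m₀, hm₀⟩ : ∃ m₀, m₀ = min (η₁ ^ 2) (η₁ ^ 3 / 2 ^ (MM r + 1)) := ⟨_, rfl⟩
  have hm₀' : 0 < m₀ := by rw [hm₀]; exact lt_min (by positivity) (by positivity)
  refine ⟨m₀ / 6, min (c₀ * δ / 24) (m₀ / (4 * M ^ 2 * 9 ^ r)), by positivity,
    lt_min (by positivity) (by positivity), ?_⟩
  intro β hβ Ω N _ S F f L h hS hL hMaj hLN hf h2 hsupp hsum
  have hN0 : (0 : ℝ) < N := by exact_mod_cast Nat.pos_of_ne_zero (NeZero.ne N)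
  have hS0 : (0 : ℝ) < S.card := by exact_mod_cast hS.card_pos
  have hsm : 2 * (M : ℝ) ^ 2 * 9 ^ r * L / N ≤ m₀ / 2 := by
    rw [div_le_iff₀ hN0]
    have e1 : L ≤ m₀ / (4 * M ^ 2 * 9 ^ r) * N :=
      hLN.trans (mul_le_mul_of_nonneg_right (min_le_right _ _) hN0.le)
    calc 2 * (M : ℝ) ^ 2 * 9 ^ r * L ≤ 2 * (M : ℝ) ^ 2 * 9 ^ r *
        (m₀ / (4 * M ^ 2 * 9 ^ r) * N) := by gcongr
      _ = m₀ / 2 * N := by field_simp; ring
  have hδ' : 3 * (m₀ / 6) + 2 * (M : ℝ) ^ 2 * 9 ^ r * L / N ≤ m₀ := by linarith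
  rw [← hM] at hMaj
  obtain ⟨hm1, hm2⟩ := mainM hr hβ hMaj hL (by positivity) hS hM.ge hη₁0
    (hδ'.trans (hm₀ ▸ min_le_left _ _)) (by
      have h1 : m₀ ≤ η₁ ^ 3 / 2 ^ (MM r + 1) := hm₀ ▸ min_le_right _ _
      rw [le_div_iff₀ (by positivity)] at h1
      calc 2 ^ (MM r + 1) * (3 * (m₀ / 6) + 2 * (M : ℝ) ^ 2 * 9 ^ r * L / N) ≤
            2 ^ (MM r + 1) * m₀ := mul_le_mul_of_nonneg_left hδ' (by positivity)
        _ = m₀ * 2 ^ (MM r + 1) := by ring
        _ ≤ η₁ ^ 3 := h1)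
  -- the good worlds
  obtain ⟨Gd, hGd⟩ : ∃ Gd : Ω → Prop, Gd = fun K => LF (fun (j : Fin (r + 1))
    (x : Fin (r + 1) → ZMod N) => F K (Lx j x)) η₁ ∧ Cube r N (F K) η₁ := ⟨_, rfl⟩
  obtain ⟨Bd, hBd⟩ : ∃ Bd, Bd = S.filter (fun K => ¬ Gd K) := ⟨_, rfl⟩
  obtain ⟨Bw, hBw⟩ : ∃ Bw, Bw = S.filter (fun K => 12 / δ * L < av (fun z => F K z ^ (r + 1))) := ⟨_, rfl⟩
  have hBwS : Bw ⊆ S := by rw [hBw]; exact filter_subset _ _
  have hBwc : (Bw.card : ℝ) ≤ δ / 12 * S.card := by
    have e1 : ∑ K ∈ S, av (fun z => F K z ^ (r + 1)) ≤ L * S.card := by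
      rw [← av_sum]
      have e2 : av (fun z : Fin r → ZMod N => ∑ K ∈ S, F K z ^ (r + 1)) ≤
          av (fun _ : Fin r → ZMod N => L * S.card) := by
        apply av_mono
        intro z
        have e3 := hMaj.bound (Fin (r + 1)) (by rw [Fintype.card_fin]; omega) (fun _ => z)
        simpa using e3
      rwa [av_const] at e2
    have e2 : (Bw.card : ℝ) * (12 / δ * L) ≤ ∑ K ∈ S, av (fun z => F K z ^ (r + 1)) := by
      calc (Bw.card : ℝ) * (12 / δ * L) = ∑ _K ∈ Bw, 12 / δ * L := by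
            rw [sum_const, nsmul_eq_mul]
        _ ≤ ∑ K ∈ Bw, av (fun z => F K z ^ (r + 1)) := by
            apply sum_le_sum
            intro K hK
            rw [hBw, mem_filter] at hK
            exact hK.2.le
        _ ≤ _ := sum_le_sum_of_subset_of_nonneg hBwS
            (fun K _ _ => av_nonneg (fun z => pow_nonneg (hMaj.nonneg K z) _))
    have e3 : (Bw.card : ℝ) * (12 / δ) * L ≤ S.card * L := by nlinarith
    have e4 : (Bw.card : ℝ) * (12 / δ) ≤ S.card := le_of_mul_le_mul_right e3 (by linarith)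
    rw [← mul_div_assoc, div_le_iff₀ hδ] at e4
    linarith
  obtain ⟨G, hG⟩ : ∃ G, G = S.filter (fun K => Gd K ∧ δ / 4 ≤ av (f K) ∧
    av (fun z => F K z ^ (r + 1)) ≤ 12 / δ * L) := ⟨_, rfl⟩
  have hBdS : Bd ⊆ S := by rw [hBd]; exact filter_subset _ _
  have hGS : G ⊆ S := by rw [hG]; exact filter_subset _ _
  have hm2' : (Bd.card : ℝ) ≤ η₁ * S.card := by
    refine le_trans (le_of_eq ?_) hm2
    rw [hBd]
    subst hGd
    congr!
  have hpart : ∀ T ⊆ S, ∑ K ∈ T, av (f K) ≤ T.card + η₁ * S.card := by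
    intro T hT
    calc ∑ K ∈ T, av (f K) ≤ ∑ K ∈ T, (1 + |av (F K) - 1|) := by
          apply sum_le_sum
          intro K _
          have h5 : av (f K) ≤ av (F K) := av_mono (fun a => (hf K a).2)
          have h6 := le_abs_self (av (F K) - 1)
          linarith
      _ = T.card + ∑ K ∈ T, |av (F K) - 1| := by
          rw [sum_add_distrib, sum_const, nsmul_eq_mul, mul_one]
      _ ≤ T.card + η₁ * S.card := by
          gcongr
          exact (sum_le_sum_of_subset_of_nonneg hT fun _ _ _ => abs_nonneg _).trans hm1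
  have hGcard : δ / 2 * S.card ≤ G.card := by
    have e1 : ∑ K ∈ S, av (f K) ≤ ∑ K ∈ G, av (f K) + ∑ K ∈ Bd ∪ Bw, av (f K) +
        δ / 4 * S.card := by
      have hcov : S ⊆ (G ∪ (Bd ∪ Bw)) ∪ S.filter (fun K => av (f K) < δ / 4) := by
        intro K hK
        rw [mem_union, mem_union, mem_union, hG, hBd, hBw, mem_filter, mem_filter, mem_filter,
          mem_filter]
        by_cases a1 : Gd K
        · by_cases a2 : δ / 4 ≤ av (f K)
          · by_cases a3 : av (fun z => F K z ^ (r + 1)) ≤ 12 / δ * L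
            · exact Or.inl (Or.inl ⟨hK, a1, a2, a3⟩)
            · exact Or.inl (Or.inr (Or.inr ⟨hK, not_le.1 a3⟩))
          · exact Or.inr ⟨hK, not_le.1 a2⟩
        · exact Or.inl (Or.inr (Or.inl ⟨hK, a1⟩))
      have hnn : ∀ K, 0 ≤ av (f K) := fun K => av_nonneg (fun a => (hf K a).1)
      calc ∑ K ∈ S, av (f K) ≤ ∑ K ∈ (G ∪ (Bd ∪ Bw)) ∪ S.filter (fun K => av (f K) < δ / 4), av (f K) :=
            sum_le_sum_of_subset_of_nonneg hcov fun K _ _ => hnn K
        _ ≤ ∑ K ∈ G ∪ (Bd ∪ Bw), av (f K) + ∑ K ∈ S.filter (fun K => av (f K) < δ / 4), av (f K) := by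
            have := sum_union_inter (s₁ := G ∪ (Bd ∪ Bw)) (s₂ := S.filter (fun K => av (f K) < δ / 4))
              (f := fun K => av (f K))
            have h7 : 0 ≤ ∑ K ∈ (G ∪ (Bd ∪ Bw)) ∩ S.filter (fun K => av (f K) < δ / 4), av (f K) :=
              sum_nonneg fun K _ => hnn K
            linarith
        _ ≤ (∑ K ∈ G, av (f K) + ∑ K ∈ Bd ∪ Bw, av (f K)) + δ / 4 * S.card := by
            apply add_le_add
            · have := sum_union_inter (s₁ := G) (s₂ := Bd ∪ Bw) (f := fun K => av (f K))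
              have h7 : 0 ≤ ∑ K ∈ G ∩ (Bd ∪ Bw), av (f K) := sum_nonneg fun K _ => hnn K
              linarith
            · calc ∑ K ∈ S.filter (fun K => av (f K) < δ / 4), av (f K)
                  ≤ ∑ _K ∈ S.filter (fun K => av (f K) < δ / 4), δ / 4 :=
                    sum_le_sum fun K hK => (mem_filter.1 hK).2.le
                _ = (S.filter (fun K => av (f K) < δ / 4)).card * (δ / 4) := by
                    rw [sum_const, nsmul_eq_mul]
                _ ≤ S.card * (δ / 4) := by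
                    gcongr
                    exact filter_subset _ _
                _ = _ := by ring
    have e2 := hpart G hGS
    have e3 := hpart (Bd ∪ Bw) (union_subset hBdS hBwS)
    have e4 : η₁ * S.card ≤ δ / 24 * S.card := by gcongr
    have e5 : ((Bd ∪ Bw).card : ℝ) ≤ Bd.card + Bw.card := by exact_mod_cast card_union_le _ _
    linarith
  refine ⟨G, hGS, hGcard, fun K hK => ?_⟩
  rw [hG, mem_filter, hGd] at hK
  have hav := H N (F K) (f K) (hf K) (fun T hT => (hK.2.1.1 T hT).trans hη₁a)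
    (fun P hP => (hK.2.1.2 P hP).trans hη₁a) hK.2.2.1
  have hfu : av (fun z => f K z ^ (r + 1)) ≤ 12 / δ * L :=
    (av_mono (fun z => pow_le_pow_left₀ (hf K z).1 (hf K z).2 (r + 1))).trans hK.2.2.2
  obtain ⟨x, hx, hx'⟩ := ex_nondegM (f K) (12 / δ * L) c₀ hfu hav (by
    have h1 : L ≤ c₀ * δ / 24 * N := hLN.trans (mul_le_mul_of_nonneg_right (min_le_left _ _) hN0.le)
    have h2 : 12 / δ * L ≤ c₀ / 2 * N := by
      calc 12 / δ * L ≤ 12 / δ * (c₀ * δ / 24 * N) := mul_le_mul_of_nonneg_left h1 (by positivity)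
        _ = c₀ / 2 * N := by field_simp; ring
    have h3 : 0 < c₀ * N := by positivity
    linarith)
  exact lift_simplex β h h2 (f K) (hsupp K) x hx hx' hr

end Pool.Agent.Helper51.UV
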