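import Pool.Agent.Helper51.UV.Ar
import Pool.Agent.Helper51.UD.Out

/-!
# Dilates of arbitrary bounded sets of shifts in dense sets of rough numbers, at arbitrary positions
-/

set_option autoImplicit false

open Finset

namespace Pool.Agent.Helper51.UV

open Pool.Agent.Helper51.UD
open Pool.Agent.Y880.RS (log_ev)

theorem dilV (k : ℕ) (hk : 1 ≤ k) (ε δ : ℝ) (hε : 0 < ε) (hε1 : ε < 1) (hδ : 0 < δ) :
    ∃ B X₀ : ℕ, ∀ X H u : ℕ, X₀ ≤ X → Real.log X ^ B ≤ H → (H : ℝ) ≤ (X : ℝ) ^ (1 - ε) →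
      ∀ P ⊆ Ioc u (u + X), (∀ p ∈ P, ∀ q : ℕ, q.Prime → q ∣ p → (X : ℝ) ^ ε < q) →
      δ * (X / Real.log X) ≤ P.card →
      ∀ a : Fin k → ℕ, Function.Injective a → (∀ i, a i ≤ H) →
        ∃ d : ℕ, 1 ≤ d ∧ (d : ℝ) ≤ (H : ℝ) ^ ε ∧ (X : ℝ) / (H : ℝ) ^ ε ≤
          (((Icc 1 (u + X)).filter (fun n => ∀ i, n + d * a i ∈ P)).card : ℝ) := by
  classical
  obtain ⟨r, hr⟩ : ∃ r, r = 2 * k + 1 := ⟨_, rfl⟩
  obtain ⟨A, hA⟩ : ∃ A, A = ⌈(48 * ((2 * MM r : ℕ) : ℝ) ^ 2 + 32) / ε⌉₊ := ⟨_, rfl⟩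
  have hA1 : (48 * ((2 * MM r : ℕ) : ℝ) ^ 2 + 32) / ε ≤ A := by rw [hA]; exact Nat.le_ceil _
  rw [div_le_iff₀ hε] at hA1
  have hMM0 : (0 : ℝ) ≤ ((2 * MM r : ℕ) : ℝ) ^ 2 := by positivity
  have hA0 : (0 : ℝ) < A := by
    by_contra h
    push Not at h
    have := mul_nonpos_of_nonpos_of_nonneg h hε.le
    linarith
  obtain ⟨c, hc, B₁, s₀, har⟩ := arithV r (by omega) A (δ / (2 * A)) (by positivity)
  obtain ⟨m, hm⟩ : ∃ m, m = (B₁ + 1) * (r + 1) := ⟨_, rfl⟩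
  have hm1 : B₁ + 1 ≤ m := by rw [hm]; exact Nat.le_mul_of_pos_right _ (Nat.succ_pos r)
  obtain ⟨A₂, hA₂⟩ : ∃ A₂, A₂ = 2 * ((B₁ + 1) * (2 * r) + 2) := ⟨_, rfl⟩
  obtain ⟨Z₀, har⟩ := har A₂
  obtain ⟨Z₁, hZ₁⟩ := log_ev (A : ℝ)
  obtain ⟨B, hB⟩ : ∃ B, B = ⌈8 * m / ε⌉₊ := ⟨_, rfl⟩
  have hB1 : 8 * m / ε ≤ (B : ℝ) := by rw [hB]; exact Nat.le_ceil _
  obtain ⟨K, hK⟩ : ∃ K : ℝ, K = 4 + 1 / c + 6 * r + Real.exp (16 * |s₀| / ε) := ⟨_, rfl⟩
  obtain ⟨X₁, hX₁⟩ := log_ev K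
  obtain ⟨X₂, hX₂⟩ := ev_rpow (max (Z₀ : ℝ) Z₁) (ε / 8) (by positivity)
  obtain ⟨X₃, hX₃⟩ := ev_rpow 2 (ε / 16) (by positivity)
  obtain ⟨X₄, hX₄⟩ := ev_log (2 / δ) (ε / 2) (by positivity)
  refine ⟨B, max (max X₁ X₂) (max X₃ X₄), ?_⟩
  intro X H u hX hBH hHX P hP hPp hPc a ha haH
  have hX1 := hX₁ X (((le_max_left _ _).trans (le_max_left _ _)).trans hX)
  have hX2 := hX₂ X (((le_max_right _ _).trans (le_max_left _ _)).trans hX)
  have hX3 := hX₃ X (((le_max_left _ _).trans (le_max_right _ _)).trans hX)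
  have hX4 := hX₄ X (((le_max_right _ _).trans (le_max_right _ _)).trans hX)
  -- the logarithm
  obtain ⟨l, hl⟩ : ∃ l, l = Real.log X := ⟨_, rfl⟩
  rw [← hl] at hX1 hX4 hBH hPc
  have hc0 : 0 < 1 / c := by positivity
  have hexp0 := Real.exp_pos (16 * |s₀| / ε)
  have hl4 : 4 ≤ l := by
    have : (0 : ℝ) ≤ 6 * r := by positivity
    linarith
  have hlc : 1 / c ≤ l := by
    have : (0 : ℝ) ≤ 6 * r := by positivity
    linarith
  have hlr : 6 * (r : ℝ) ≤ l := by linarith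
  have hls : Real.exp (16 * |s₀| / ε) ≤ l := by
    have : (0 : ℝ) ≤ 6 * r := by positivity
    linarith
  have hXpos : 0 < X := by
    rcases Nat.eq_zero_or_pos X with h | h
    · rw [h] at hl
      simp at hl
      linarith
    · exact h
  have hx0 : (0 : ℝ) < X := by exact_mod_cast hXpos
  obtain ⟨x, hx⟩ : ∃ x : ℝ, x = X := ⟨_, rfl⟩
  obtain ⟨h, hh⟩ : ∃ h : ℝ, h = H := ⟨_, rfl⟩
  have hlx : l ≤ x := by
    rw [hl, hx]
    have := Real.log_le_sub_one_of_pos hx0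
    linarith
  have hx1 : 1 ≤ x := by linarith
  have hexpl : Real.exp l = x := by rw [hl, Real.exp_log hx0, hx]
  rw [← hx] at hX2 hX3 hX4 hHX hPc hPp ⊢
  rw [← hh] at hBH hHX ⊢
  -- powers of `l` and powers of `h`
  have hlh : l ^ m ≤ h ^ (ε / 8) := by
    have h1 : l ^ (8 * m / ε) ≤ h := by
      refine le_trans ?_ hBH
      rw [← Real.rpow_natCast l B]
      exact Real.rpow_le_rpow_of_exponent_le (by linarith) hB1
    calc l ^ m = (l ^ (8 * m / ε)) ^ (ε / 8) := by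
          rw [← Real.rpow_mul (by linarith), ← Real.rpow_natCast l m]
          congr 1
          field_simp
      _ ≤ h ^ (ε / 8) := Real.rpow_le_rpow (by positivity) h1 (by positivity)
  have hm0 : m ≠ 0 := by omega
  have hll : l ≤ h ^ (ε / 8) := (le_self_pow₀ (by linarith) hm0).trans hlh
  have hh1 : 1 ≤ h := by
    by_contra hcon
    push Not at hcon
    have h0 : 0 ≤ h := by rw [hh]; positivity
    have := Real.rpow_le_one h0 hcon.le (show 0 ≤ ε / 8 by positivity)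
    linarith
  have hlh' : l ≤ h := by
    refine hll.trans ?_
    calc h ^ (ε / 8) ≤ h ^ (1 : ℝ) := Real.rpow_le_rpow_of_exponent_le hh1 (by linarith)
      _ = h := Real.rpow_one h
  have hhx : h ≤ x := by
    refine hHX.trans ?_
    calc x ^ (1 - ε) ≤ x ^ (1 : ℝ) := Real.rpow_le_rpow_of_exponent_le hx1 (by linarith)
      _ = x := Real.rpow_one x
  have hh0 : 0 < h := by linarith
  have hloghl : Real.log h ≤ l := by
    rw [hl, ← hx]
    exact Real.log_le_log hh0 hhx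
  have hlogh0 : 0 ≤ Real.log h := Real.log_nonneg hh1
  have hx0' : 0 < x := by linarith
  -- the parameters
  obtain ⟨s, hs⟩ : ∃ s, s = ε / 16 * Real.log h := ⟨_, rfl⟩
  have hs0 : s₀ ≤ s := by
    have h1 : 16 * |s₀| / ε ≤ Real.log h := by
      rw [Real.le_log_iff_exp_le hh0]
      exact hls.trans hlh'
    rw [div_le_iff₀ hε] at h1
    have h2 := le_abs_self s₀
    rw [hs]
    linarith
  have hsnn : 0 ≤ s := by rw [hs]; positivity
  obtain ⟨Q, hQ⟩ : ∃ Q, Q = primorial ⌊s⌋₊ := ⟨_, rfl⟩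
  have hQ1 : 1 ≤ Q := by rw [hQ]; exact primorial_pos _
  have hQh : (Q : ℝ) ≤ h ^ (ε / 8) := by
    have h1 : (Q : ℝ) ≤ (4 : ℝ) ^ ⌊s⌋₊ := by
      rw [hQ]
      exact_mod_cast primorial_le_four_pow _
    have h2 : (4 : ℝ) ^ ⌊s⌋₊ ≤ Real.exp (2 * s) := by
      have h3 : (4 : ℝ) ≤ Real.exp 2 := by
        have := Real.quadratic_le_exp_of_nonneg (show (0 : ℝ) ≤ 2 by norm_num)
        linarith
      calc (4 : ℝ) ^ ⌊s⌋₊ ≤ (Real.exp 2) ^ ⌊s⌋₊ := pow_le_pow_left₀ (by norm_num) h3 _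
        _ = Real.exp (⌊s⌋₊ * 2) := (Real.exp_nat_mul 2 _).symm
        _ ≤ Real.exp (2 * s) := by
          apply Real.exp_le_exp.2
          have := Nat.floor_le hsnn
          linarith
    refine h1.trans (h2.trans (le_of_eq ?_))
    rw [Real.rpow_def_of_pos hh0, hs]
    congr 1
    ring
  obtain ⟨Z, hZ⟩ : ∃ Z, Z = ⌊x ^ (ε / 8)⌋₊ := ⟨_, rfl⟩
  have hZx : (Z : ℝ) ≤ x ^ (ε / 8) := by rw [hZ]; exact Nat.floor_le (by positivity)
  have hZ0 : Z₀ ≤ Z := by rw [hZ]; exact Nat.le_floor ((le_max_left _ _).trans hX2)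
  have hZ1 : Z₁ ≤ Z := by rw [hZ]; exact Nat.le_floor ((le_max_right _ _).trans hX2)
  have hlogZ := hZ₁ Z hZ1
  have hZ16 : x ^ (ε / 16) ≤ Z := by
    have h1 : x ^ (ε / 8) = x ^ (ε / 16) * x ^ (ε / 16) := by
      rw [← Real.rpow_add hx0']
      congr 1
      ring
    have h2 : x ^ (ε / 8) < Z + 1 := by rw [hZ]; exact Nat.lt_floor_add_one _
    have h3 : 2 * x ^ (ε / 16) ≤ x ^ (ε / 16) * x ^ (ε / 16) :=
      mul_le_mul_of_nonneg_right hX3 (Real.rpow_nonneg hx0'.le _)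
    linarith
  have hZpos : 0 < Z := by
    have : (0 : ℝ) < Z := lt_of_lt_of_le (by positivity) hZ16
    exact_mod_cast this
  have hZx' : (Z : ℝ) ≤ x := by
    refine hZx.trans ?_
    calc x ^ (ε / 8) ≤ x ^ (1 : ℝ) := Real.rpow_le_rpow_of_exponent_le hx1 (by linarith)
      _ = x := Real.rpow_one x
  have hlogZl : Real.log Z ≤ l := by
    rw [hl, ← hx]
    exact Real.log_le_log (by exact_mod_cast hZpos) hZx'
  have hlogZ0 : 0 < Real.log Z := by linarith
  have hXZA : 2 * X ≤ Z ^ A := by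
    have h1 : (2 : ℝ) * x ≤ (Z : ℝ) ^ A := by
      calc (2 : ℝ) * x ≤ x * x := by
            have : 2 ≤ x := by linarith
            exact mul_le_mul_of_nonneg_right this hx0'.le
        _ = x ^ (2 : ℝ) := by rw [Real.rpow_two]; ring
        _ ≤ x ^ (ε / 16 * A) := by
            apply Real.rpow_le_rpow_of_exponent_le hx1
            linarith
        _ = (x ^ (ε / 16)) ^ A := by rw [Real.rpow_mul hx0'.le, Real.rpow_natCast]
        _ ≤ (Z : ℝ) ^ A := pow_le_pow_left₀ (by positivity) hZ16 A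
    rw [hx] at h1
    exact_mod_cast h1
  have hlA : l ≤ A * Real.log Z := by
    have h1 : x ≤ (Z : ℝ) ^ A := by
      have h2 : (2 * X : ℝ) ≤ (Z : ℝ) ^ A := by exact_mod_cast hXZA
      rw [hx]
      linarith
    calc l = Real.log x := by rw [hl, hx]
      _ ≤ Real.log ((Z : ℝ) ^ A) := Real.log_le_log hx0' h1
      _ = A * Real.log Z := Real.log_pow _ _
  obtain ⟨N, hN⟩ : ∃ N, N = ⌈l ^ B₁⌉₊ := ⟨_, rfl⟩
  have hNlo : l ^ B₁ ≤ N := by rw [hN]; exact Nat.le_ceil _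
  have hNhi : (N : ℝ) ≤ l ^ (B₁ + 1) := by
    have h1 : (N : ℝ) < l ^ B₁ + 1 := by rw [hN]; exact Nat.ceil_lt_add_one (by positivity)
    have h2 : 1 ≤ l ^ B₁ := one_le_pow₀ (by linarith)
    have h3 : l ^ B₁ * 4 ≤ l ^ B₁ * l := mul_le_mul_of_nonneg_left hl4 (by linarith)
    rw [pow_succ]
    linarith
  have hN1 : (1 : ℝ) ≤ N := (one_le_pow₀ (by linarith)).trans hNlo
  have hNpos : 0 < N := by
    have : (0 : ℝ) < N := by linarith
    exact_mod_cast this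
  have hNne : NeZero N := ⟨hNpos.ne'⟩
  have hNh : (N : ℝ) ≤ h ^ (ε / 8) :=
    hNhi.trans ((pow_le_pow_right₀ (by linarith) hm1).trans hlh)
  have hNrh : (N : ℝ) ^ (r + 1) ≤ h ^ (ε / 8) := by
    calc (N : ℝ) ^ (r + 1) ≤ (l ^ (B₁ + 1)) ^ (r + 1) := pow_le_pow_left₀ (by positivity) hNhi _
      _ = l ^ m := by rw [← pow_mul, hm]
      _ ≤ _ := hlh
  obtain ⟨R, hR⟩ : ∃ R, R = r * ((2 * H + 3) * N) + 1 := ⟨_, rfl⟩
  have hR1 : (R : ℝ) ≤ l * (h * N) := by
    have h1 : (R : ℝ) = r * ((2 * h + 3) * N) + 1 := by rw [hR, hh]; push_cast; ring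
    rw [h1]
    have h2 : (1 : ℝ) ≤ h * N := one_le_mul_of_one_le_of_one_le hh1 hN1
    have h3 : (1 : ℝ) ≤ r := by
      have : 1 ≤ r := by omega
      exact_mod_cast this
    have h4 : (2 * h + 3) * N ≤ 5 * (h * N) := by
      have h5 : (2 * h + 3) * N ≤ (5 * h) * N :=
        mul_le_mul_of_nonneg_right (by linarith) (by linarith)
      linarith
    calc (r : ℝ) * ((2 * h + 3) * N) + 1 ≤ r * (5 * (h * N)) + r * (h * N) := by
          have h5 : (r : ℝ) * ((2 * h + 3) * N) ≤ r * (5 * (h * N)) :=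
            mul_le_mul_of_nonneg_left h4 (by positivity)
          have h6 : 1 ≤ (r : ℝ) * (h * N) := one_le_mul_of_one_le_of_one_le h3 h2
          linarith
      _ = 6 * r * (h * N) := by ring
      _ ≤ l * (h * N) := mul_le_mul_of_nonneg_right hlr (by positivity)
  have hRpos : (0 : ℝ) < R := by rw [hR]; positivity
  have hR3 : (R : ℝ) ≤ h ^ 3 := by
    have h1 : (N : ℝ) ≤ h := by
      refine hNh.trans ?_
      calc h ^ (ε / 8) ≤ h ^ (1 : ℝ) := Real.rpow_le_rpow_of_exponent_le hh1 (by linarith)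
        _ = h := Real.rpow_one h
    calc (R : ℝ) ≤ l * (h * N) := hR1
      _ ≤ h * (h * h) := by gcongr
      _ = h ^ 3 := by ring
  have hlogR : Real.log R ≤ 3 * Real.log h := by
    calc Real.log R ≤ Real.log (h ^ 3) := Real.log_le_log hRpos hR3
      _ = 3 * Real.log h := by rw [Real.log_pow]; norm_num
  have hlogR0 : 0 ≤ Real.log R := Real.log_natCast_nonneg R
  have hQR : (Q : ℝ) * R ≤ x ^ (1 - ε / 2) := by
    have h1 : (Q : ℝ) * R ≤ h ^ (ε / 8) * (h ^ (ε / 8) * (h * h ^ (ε / 8))) := by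
      refine mul_le_mul hQh (hR1.trans ?_) hRpos.le (by positivity)
      exact mul_le_mul hll (mul_le_mul_of_nonneg_left hNh hh0.le) (by positivity) (by positivity)
    have h2 : h ^ (ε / 8) * (h ^ (ε / 8) * (h * h ^ (ε / 8))) = h ^ (1 + 3 * ε / 8) := by
      conv_lhs => rw [← Real.rpow_one h]
      simp only [← Real.rpow_mul hh0.le, one_mul]
      rw [← Real.rpow_add hh0, ← Real.rpow_add hh0, ← Real.rpow_add hh0]
      congr 1
      ring
    rw [h2] at h1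
    refine h1.trans ?_
    calc h ^ (1 + 3 * ε / 8) ≤ (x ^ (1 - ε)) ^ (1 + 3 * ε / 8) :=
          Real.rpow_le_rpow hh0.le hHX (by positivity)
      _ = x ^ ((1 - ε) * (1 + 3 * ε / 8)) := by rw [← Real.rpow_mul hx0'.le]
      _ ≤ x ^ (1 - ε / 2) := by
          apply Real.rpow_le_rpow_of_exponent_le hx1
          have h3 : 0 ≤ ε * ε := mul_self_nonneg ε
          linarith
  obtain ⟨b, hb, hbH, hb1, hb2, hb3⟩ := pts k H a ha haH
  subst hr
  have hrn : ∀ z : Fin (2 * k + 1) → ZMod N, rn b z + 1 ≤ R := by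
    intro z
    rw [hR]
    apply Nat.succ_le_succ
    unfold rn
    calc ∑ l, b l * (z l).val ≤ ∑ _l : Fin (2 * k + 1), (2 * H + 3) * N :=
          sum_le_sum fun l _ => Nat.mul_le_mul (hbH l) (ZMod.val_lt _).le
      _ = (2 * k + 1) * ((2 * H + 3) * N) := by
          rw [sum_const, card_univ, Fintype.card_fin, smul_eq_mul]
  -- the rough numbers
  obtain ⟨P₁, hP₁⟩ : ∃ P₁ : Finset ℕ, P₁ = P.filter (fun p : ℕ => u + x ^ (1 - ε / 2) < (p : ℝ)) :=
    ⟨_, rfl⟩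
  have hP₁c : δ / 2 * (x / l) ≤ P₁.card := by
    have h1 : P.card ≤ P₁.card + ⌊x ^ (1 - ε / 2)⌋₊ := by
      have h2 : P ⊆ P₁ ∪ Ioc u (u + ⌊x ^ (1 - ε / 2)⌋₊) := by
        intro p hp
        rw [mem_union, hP₁, mem_filter, mem_Ioc]
        by_cases h3 : u + x ^ (1 - ε / 2) < (p : ℝ)
        · exact Or.inl ⟨hp, h3⟩
        · push Not at h3
          have h4 := (mem_Ioc.1 (hP hp)).1
          refine Or.inr ⟨h4, ?_⟩
          have h5 : p - u ≤ ⌊x ^ (1 - ε / 2)⌋₊ := by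
            apply Nat.le_floor
            rw [Nat.cast_sub h4.le]
            linarith
          omega
      refine (card_le_card h2).trans ((card_union_le _ _).trans ?_)
      rw [Nat.card_Ioc]
      omega
    have h2 : (P.card : ℝ) ≤ P₁.card + x ^ (1 - ε / 2) := by
      have h3 : (P.card : ℝ) ≤ P₁.card + ⌊x ^ (1 - ε / 2)⌋₊ := by exact_mod_cast h1
      have h4 := Nat.floor_le (show 0 ≤ x ^ (1 - ε / 2) by positivity)
      linarith
    have h3 : x ^ (1 - ε / 2) ≤ δ / 2 * (x / l) := by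
      have h4 : x ^ (1 - ε / 2) * x ^ (ε / 2) = x := by
        rw [← Real.rpow_add hx0']
        have : 1 - ε / 2 + ε / 2 = 1 := by ring
        rw [this, Real.rpow_one]
      have h5 : x ^ (1 - ε / 2) * (2 / δ * l) ≤ x := by
        calc _ ≤ x ^ (1 - ε / 2) * x ^ (ε / 2) := mul_le_mul_of_nonneg_left hX4 (by positivity)
          _ = x := h4
      rw [← mul_div_assoc, le_div_iff₀ (by linarith)]
      calc x ^ (1 - ε / 2) * l = δ / 2 * (x ^ (1 - ε / 2) * (2 / δ * l)) := by field_simp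
        _ ≤ δ / 2 * x := mul_le_mul_of_nonneg_left h5 (by positivity)
    have h4 : δ * (x / l) = δ / 2 * (x / l) + δ / 2 * (x / l) := by ring
    linarith
  have hP₁p : ∀ p ∈ P₁, p ∈ P ∧ (∀ q : ℕ, q.Prime → q ∣ p → Q < q ∧ Z < q) ∧ u + Q * R < p := by
    intro p hp
    rw [hP₁, mem_filter] at hp
    refine ⟨hp.1, fun q hq hqp => ⟨?_, ?_⟩, ?_⟩
    · have h1 : (Q : ℝ) < q := by
        refine lt_of_le_of_lt (hQh.trans ?_) (hPp p hp.1 q hq hqp)
        calc h ^ (ε / 8) ≤ x ^ (ε / 8) := Real.rpow_le_rpow hh0.le hhx (by positivity)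
          _ ≤ x ^ ε := Real.rpow_le_rpow_of_exponent_le hx1 (by linarith)
      exact_mod_cast h1
    · have h1 : (Z : ℝ) < q := by
        refine lt_of_le_of_lt (hZx.trans ?_) (hPp p hp.1 q hq hqp)
        exact Real.rpow_le_rpow_of_exponent_le hx1 (by linarith)
      exact_mod_cast h1
    · have h1 : ((u + Q * R : ℕ) : ℝ) < p := by
        push_cast
        linarith [hp.2]
      exact_mod_cast h1
  have hRpos' : 1 ≤ R := by rw [hR]; omega
  have hcop : ∀ p ∈ P₁, Nat.Coprime p Q := by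
    intro p hp
    obtain ⟨h1, h2, h3⟩ := hP₁p p hp
    apply Nat.Coprime.symm
    refine Nat.coprime_of_dvd fun q hq hqQ hqp => ?_
    have h6 := Nat.le_of_dvd (by omega) hqQ
    have h7 := (h2 q hq hqp).1
    omega
  obtain ⟨a₀, ha₀⟩ := class_ex P₁ Q hQ1 hcop
  obtain ⟨P', hP'⟩ : ∃ P', P' = P₁.filter (fun p => p % Q = a₀ % Q) := ⟨_, rfl⟩
  rw [← hP'] at ha₀
  have hP'P : P' ⊆ P := by
    intro p hp
    rw [hP', mem_filter] at hp
    exact (hP₁p p hp.1).1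
  have hφ0 : (0 : ℝ) < Q.totient := by exact_mod_cast Nat.totient_pos.2 hQ1
  have hQ0 : (0 : ℝ) < Q := by exact_mod_cast hQ1
  have hQRX : Q * R ≤ X := by
    have h1 : ((Q * R : ℕ) : ℝ) ≤ x := by
      push_cast
      refine hQR.trans ?_
      calc x ^ (1 - ε / 2) ≤ x ^ (1 : ℝ) :=
            Real.rpow_le_rpow_of_exponent_le hx1 (by linarith)
        _ = x := Real.rpow_one x
    rw [hx] at h1
    exact_mod_cast h1
  have hZQX : Z * Q ≤ X := by
    have h1 : ((Z * Q : ℕ) : ℝ) ≤ x := by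
      push_cast
      calc (Z : ℝ) * Q ≤ x ^ (ε / 8) * x ^ (ε / 8) := by
            refine mul_le_mul hZx (hQh.trans ?_) hQ0.le (by positivity)
            exact Real.rpow_le_rpow hh0.le hhx (by positivity)
        _ = x ^ (ε / 8 + ε / 8) := (Real.rpow_add hx0' _ _).symm
        _ ≤ x ^ (1 : ℝ) := Real.rpow_le_rpow_of_exponent_le hx1 (by linarith)
        _ = x := Real.rpow_one x
    rw [hx] at h1
    exact_mod_cast h1
  have hQZA : Q ≤ Z ^ A := by
    have h1 : (Q : ℝ) ≤ x := by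
      refine hQh.trans ?_
      calc h ^ (ε / 8) ≤ x ^ (ε / 8) := Real.rpow_le_rpow hh0.le hhx (by positivity)
        _ ≤ x ^ (1 : ℝ) := Real.rpow_le_rpow_of_exponent_le hx1 (by linarith)
        _ = x := Real.rpow_one x
    have h2 : Q ≤ X := by rw [hx] at h1; exact_mod_cast h1
    omega
  obtain ⟨D, hD, hDN, hcount⟩ := har Z Q N X R u s hZ0 hQ1 hs0
    (fun p hp hps => by rw [hQ]; exact prim_dvd s p hp hps)
    ((pow_le_pow_left₀ hlogZ0.le hlogZl B₁).trans hNlo)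
    (by
      calc (N : ℝ) ^ (2 * (2 * k + 1)) * Real.log R
          ≤ (l ^ (B₁ + 1)) ^ (2 * (2 * k + 1)) * (l * l) := by
            refine mul_le_mul (pow_le_pow_left₀ (by positivity) hNhi _) ?_ hlogR0 (by positivity)
            refine hlogR.trans ?_
            exact mul_le_mul (by linarith) hloghl hlogh0 (by linarith)
        _ = l ^ ((B₁ + 1) * (2 * (2 * k + 1)) + 2) := by rw [← pow_mul, pow_add]; ring
        _ ≤ (Real.log Z * Real.log Z) ^ ((B₁ + 1) * (2 * (2 * k + 1)) + 2) := by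
            refine pow_le_pow_left₀ (by linarith) (hlA.trans ?_) _
            exact mul_le_mul_of_nonneg_right hlogZ hlogZ0.le
        _ = Real.log Z ^ A₂ := by rw [hA₂, ← pow_two, ← pow_mul])
    (by
      calc ((2 * MM (2 * k + 1) : ℕ) : ℝ) ^ 2 * Real.log R
          ≤ ((2 * MM (2 * k + 1) : ℕ) : ℝ) ^ 2 * (3 * Real.log h) :=
            mul_le_mul_of_nonneg_left hlogR hMM0
        _ = (48 * ((2 * MM (2 * k + 1) : ℕ) : ℝ) ^ 2) / 16 * Real.log h := by ring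
        _ ≤ (A * ε) / 16 * Real.log h := by
            apply mul_le_mul_of_nonneg_right _ hlogh0
            linarith
        _ = A * s := by rw [hs]; ring)
    hZQX hQZA hQRX b hb hrn a₀ P'
    (by
      intro p hp
      rw [hP', mem_filter] at hp
      obtain ⟨h1, h2, h3⟩ := hP₁p p hp.1
      exact ⟨(mem_Ioc.1 (hP h1)).2, h3, hp.2, fun q hq hqp => (h2 q hq hqp).2⟩)
    (by
      refine le_trans ?_ ha₀
      rw [← hx]
      have h1 : δ / (2 * A) * (x / (Q.totient * Real.log Z)) =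
          δ / 2 * (x / (A * Real.log Z)) / Q.totient := by
        field_simp
      rw [h1]
      apply div_le_div_of_nonneg_right _ hφ0.le
      refine le_trans ?_ hP₁c
      apply mul_le_mul_of_nonneg_left _ (by positivity)
      apply div_le_div_of_nonneg_left hx0'.le (by linarith) hlA)
  obtain ⟨d, hd1, hd2, hd3⟩ := sign k H (u + X) Q hk hQ1 a haH P
    (fun p hp => by have := mem_Ioc.1 (hP hp); exact mem_Icc.2 ⟨by omega, this.2⟩) b hb1 hb2 hb3 D hD P' hP'P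
  refine ⟨d, hd1, ?_, ?_⟩
  · have h1 : (d : ℝ) ≤ Q * N := by
      have h2 : (d : ℤ) ≤ Q * N := by
        rw [hd2]
        exact mul_le_mul_of_nonneg_left hDN.le (by positivity)
      have h3 : d ≤ Q * N := by exact_mod_cast h2
      exact_mod_cast h3
    calc (d : ℝ) ≤ Q * N := h1
      _ ≤ h ^ (ε / 8) * h ^ (ε / 8) := mul_le_mul hQh hNh (by positivity) (by positivity)
      _ = h ^ (ε / 8 + ε / 8) := (Real.rpow_add hh0 _ _).symm
      _ ≤ h ^ ε := Real.rpow_le_rpow_of_exponent_le hh1 (by linarith)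
  · refine le_trans ?_ (by exact_mod_cast hd3 :
      ((P'.filter (fun n : ℕ => ∀ l, ∃ p ∈ P', (p : ℤ) = (n : ℤ) + Q * D * b l)).card : ℝ) ≤ _)
    refine le_trans ?_ hcount
    rw [← hx, div_div, ← mul_div_assoc, div_le_div_iff₀ (by positivity) (by positivity)]
    have h1 : (Q : ℝ) * (N : ℝ) ^ (2 * k + 1 + 1) ≤ h ^ (ε / 8) * h ^ (ε / 8) :=
      mul_le_mul hQh hNrh (by positivity) (by positivity)
    have h2 : 1 ≤ c * h ^ (ε / 8) := by
      have h3 : 1 / c ≤ h ^ (ε / 8) := hlc.trans hll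
      rw [div_le_iff₀ hc] at h3
      linarith
    have h3 : (Q : ℝ) * (N : ℝ) ^ (2 * k + 1 + 1) ≤ c * h ^ ε := by
      calc (Q : ℝ) * (N : ℝ) ^ (2 * k + 1 + 1) ≤ h ^ (ε / 8) * h ^ (ε / 8) := h1
        _ ≤ (c * h ^ (ε / 8)) * (h ^ (ε / 8) * h ^ (ε / 8)) :=
            le_mul_of_one_le_left (by positivity) h2
        _ = c * (h ^ (ε / 8) * h ^ (ε / 8) * h ^ (ε / 8)) := by ring
        _ = c * h ^ (ε / 8 + ε / 8 + ε / 8) := by
            rw [Real.rpow_add hh0, Real.rpow_add hh0]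
        _ ≤ c * h ^ ε := by
            apply mul_le_mul_of_nonneg_left _ hc.le
            exact Real.rpow_le_rpow_of_exponent_le hh1 (by linarith)
    calc x * ((Q : ℝ) * (N : ℝ) ^ (2 * k + 1 + 1)) ≤ x * (c * h ^ ε) :=
          mul_le_mul_of_nonneg_left h3 hx0'.le
      _ = c * x * h ^ ε := by ring

end Pool.Agent.Helper51.UV
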