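import Pool.Agent.Helper51.UV.Ma

/-!
# A point with many dilates
-/

set_option autoImplicit false

open Finset

namespace Pool.Agent.Helper51.UV

open Pool.Agent.Helper51.UD
open Pool.Agent.Y880.RS (log_ev)

/-- a point of a dense set of rough numbers with many dilates of a pattern -/
theorem typV (k : ℕ) (ε δ : ℝ) (hε : 0 < ε) (hε1 : ε < 1) (hδ : 0 < δ) :
    ∃ B X₀ : ℕ, ∀ X H D u : ℕ, X₀ ≤ X → 1 ≤ H → Real.log X ^ B ≤ D → (H : ℝ) ^ ε ≤ D →
      (D : ℝ) * H ≤ (X : ℝ) ^ (1 - ε) →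
      ∀ P ⊆ Ioc u (u + X), (∀ p ∈ P, ∀ q : ℕ, q.Prime → q ∣ p → (X : ℝ) ^ ε < q) →
      δ * (X / Real.log X) ≤ P.card →
      ∀ T : Finset ℤ, T.card ≤ k → (∀ t ∈ T, |t| ≤ H) →
        ∃ p ∈ P, (D : ℝ) ^ (1 - ε) ≤ (((Icc 1 D).filter (fun d : ℕ => ∀ t ∈ T, ∃ q ∈ P,
          (q : ℤ) = (p : ℤ) + d * t)).card : ℝ) := by
  classical
  obtain ⟨ε', hε'⟩ : ∃ ε', ε' = ε / 2 := ⟨_, rfl⟩
  have hε'0 : 0 < ε' := by rw [hε']; positivity
  obtain ⟨B, X₀, h⟩ := manyV (k + 1) ε' δ hε'0 (by linarith) hδ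
  obtain ⟨X₁, hX₁⟩ := log_ev 4
  obtain ⟨X₂, hX₂⟩ := ev_rpow 2 ε' hε'0
  refine ⟨B + 1, max (max X₀ X₁) (max X₂ 1), fun X H D u hX hH hBD hHD hDX P hP hPp hPc T hTk hT => ?_⟩
  have hX0 := h X (2 * H) D u (((le_max_left _ _).trans (le_max_left _ _)).trans hX)
  have hl := hX₁ X (((le_max_right _ _).trans (le_max_left _ _)).trans hX)
  have hX2 := hX₂ X (((le_max_left _ _).trans (le_max_right _ _)).trans hX)
  have hX1 : 1 ≤ X := ((le_max_right _ _).trans (le_max_right _ _)).trans hX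
  have hXr : (1 : ℝ) ≤ X := by exact_mod_cast hX1
  have hXr0 : (0 : ℝ) < X := by linarith
  have hl1 : 1 ≤ Real.log X := by linarith
  have hHr : (1 : ℝ) ≤ H := by exact_mod_cast hH
  have hBD' : Real.log X ^ B ≤ D := (pow_le_pow_right₀ hl1 (Nat.le_succ B)).trans hBD
  have hD4 : (4 : ℝ) ≤ D := by
    refine hl.trans ((le_self_pow₀ hl1 (Nat.succ_ne_zero B)).trans hBD)
  have hD0 : (0 : ℝ) < D := by linarith
  -- the pattern
  obtain ⟨T', hT'⟩ : ∃ T' : Finset ℕ, T' = (insert 0 T).image (fun t : ℤ => (t + H).toNat) := ⟨_, rfl⟩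
  have hT0 : ∀ t ∈ insert 0 T, |t| ≤ H := by
    intro t ht
    rw [mem_insert] at ht
    rcases ht with rfl | ht
    · rw [abs_zero]; positivity
    · exact hT t ht
  have hT'c : T'.card ≤ k + 1 := by
    rw [hT']
    exact card_image_le.trans ((card_insert_le _ _).trans (by omega))
  have hT'H : ∀ t ∈ T', t ≤ 2 * H := by
    intro t ht
    rw [hT', mem_image] at ht
    obtain ⟨t', ht', rfl⟩ := ht
    have := abs_le.1 (hT0 t' ht')
    omega
  have hH2 : ((2 * H : ℕ) : ℝ) ^ ε' ≤ D := by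
    have e1 : (H : ℝ) ^ ε' ≤ Real.sqrt D := by
      have e2 : (H : ℝ) ^ ε' = Real.sqrt ((H : ℝ) ^ ε) := by
        rw [Real.sqrt_eq_rpow, ← Real.rpow_mul (by linarith), hε']
        congr 1
        ring
      rw [e2]
      exact Real.sqrt_le_sqrt hHD
    have e3 : (2 : ℝ) ^ ε' ≤ 2 := by
      calc (2 : ℝ) ^ ε' ≤ (2 : ℝ) ^ (1 : ℝ) :=
            Real.rpow_le_rpow_of_exponent_le (by norm_num) (by linarith)
        _ = 2 := Real.rpow_one 2
    have e4 : 2 ≤ Real.sqrt D := by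
      rw [show (2 : ℝ) = Real.sqrt 4 by
        rw [show (4 : ℝ) = 2 ^ 2 by norm_num]; exact (Real.sqrt_sq (by norm_num)).symm]
      exact Real.sqrt_le_sqrt hD4
    push_cast
    rw [Real.mul_rpow (by norm_num) (by linarith)]
    calc (2 : ℝ) ^ ε' * (H : ℝ) ^ ε' ≤ Real.sqrt D * Real.sqrt D :=
          mul_le_mul (e3.trans e4) e1 (by positivity) (by positivity)
      _ = D := Real.mul_self_sqrt hD0.le
  have hDH2 : (D : ℝ) * ((2 * H : ℕ) : ℝ) ≤ (X : ℝ) ^ (1 - ε') := by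
    calc (D : ℝ) * ((2 * H : ℕ) : ℝ) = 2 * (D * H) := by push_cast; ring
      _ ≤ (X : ℝ) ^ ε' * (X : ℝ) ^ (1 - ε) :=
          mul_le_mul hX2 hDX (by positivity) (by positivity)
      _ = (X : ℝ) ^ (1 - ε') := by
          rw [← Real.rpow_add hXr0, hε']
          congr 1
          ring
  have hPp' : ∀ p ∈ P, ∀ q : ℕ, q.Prime → q ∣ p → (X : ℝ) ^ ε' < q := by
    intro p hp q hq hqp
    refine lt_of_le_of_lt ?_ (hPp p hp q hq hqp)
    exact Real.rpow_le_rpow_of_exponent_le hXr (by linarith)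
  have hmany := hX0 (by omega) hBD' hH2 hDH2 P hP hPp' hPc T' hT'c hT'H
  -- the dilates
  obtain ⟨G, hG⟩ : ∃ G, G = (Icc 1 D).filter (fun d => (X : ℝ) / (D : ℝ) ^ ε' ≤
    (((Icc 1 (u + X)).filter (fun n => ∀ t ∈ T', n + d * t ∈ P)).card : ℝ)) := ⟨_, rfl⟩
  rw [← hG] at hmany
  have hcnt : ∀ d ∈ G, (X : ℝ) / (D : ℝ) ^ ε' ≤ ((P.filter (fun p : ℕ => ∀ t ∈ T, ∃ q ∈ P,
      (q : ℤ) = (p : ℤ) + d * t)).card : ℝ) := by
    intro d hd
    rw [hG, mem_filter] at hd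
    refine hd.2.trans ?_
    have h1 : ((Icc 1 (u + X)).filter (fun n => ∀ t ∈ T', n + d * t ∈ P)).card ≤
        (P.filter (fun p : ℕ => ∀ t ∈ T, ∃ q ∈ P, (q : ℤ) = (p : ℤ) + d * t)).card := by
      refine card_le_card_of_injOn (fun n => n + d * H) ?_ ?_
      · intro n hn
        rw [mem_coe, mem_filter] at hn
        rw [mem_coe, mem_filter]
        have key : ∀ t ∈ insert 0 T, n + d * (t + H).toNat ∈ P := by
          intro t ht
          apply hn.2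
          rw [hT']
          exact mem_image_of_mem _ ht
        refine ⟨?_, fun t ht => ⟨_, key t (mem_insert_of_mem ht), ?_⟩⟩
        · have := key 0 (mem_insert_self _ _)
          simpa using this
        · have h2 := abs_le.1 (hT t ht)
          have h3 : (((t + H).toNat : ℕ) : ℤ) = t + H := Int.toNat_of_nonneg (by omega)
          push_cast
          rw [h3]
          ring
      · intro n _ n' _ hnn
        simp only at hnn
        omega
    exact_mod_cast h1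
  by_contra hcon
  push Not at hcon
  -- double counting
  have hsum1 : (D : ℝ) ^ (1 - ε') * ((X : ℝ) / (D : ℝ) ^ ε') ≤
      ∑ d ∈ G, ((P.filter (fun p : ℕ => ∀ t ∈ T, ∃ q ∈ P, (q : ℤ) = (p : ℤ) + d * t)).card : ℝ) := by
    calc (D : ℝ) ^ (1 - ε') * ((X : ℝ) / (D : ℝ) ^ ε') ≤ G.card * ((X : ℝ) / (D : ℝ) ^ ε') :=
          mul_le_mul_of_nonneg_right hmany (by positivity)
      _ = ∑ _d ∈ G, (X : ℝ) / (D : ℝ) ^ ε' := by rw [sum_const, nsmul_eq_mul]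
      _ ≤ _ := sum_le_sum hcnt
  have hsum2 : ∑ d ∈ G, ((P.filter (fun p : ℕ => ∀ t ∈ T, ∃ q ∈ P,
      (q : ℤ) = (p : ℤ) + d * t)).card : ℝ) ≤
      ∑ p ∈ P, (((Icc 1 D).filter (fun d : ℕ => ∀ t ∈ T, ∃ q ∈ P,
        (q : ℤ) = (p : ℤ) + d * t)).card : ℝ) := by
    have h1 : ∑ d ∈ G, (P.filter (fun p : ℕ => ∀ t ∈ T, ∃ q ∈ P,
        (q : ℤ) = (p : ℤ) + d * t)).card ≤
        ∑ d ∈ Icc 1 D, (P.filter (fun p : ℕ => ∀ t ∈ T, ∃ q ∈ P,
          (q : ℤ) = (p : ℤ) + d * t)).card := by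
      apply sum_le_sum_of_subset
      rw [hG]
      exact filter_subset _ _
    have h2 : ∑ d ∈ Icc 1 D, (P.filter (fun p : ℕ => ∀ t ∈ T, ∃ q ∈ P,
          (q : ℤ) = (p : ℤ) + (d : ℕ) * t)).card =
        ∑ p ∈ P, ((Icc 1 D).filter (fun d : ℕ => ∀ t ∈ T, ∃ q ∈ P,
          (q : ℤ) = (p : ℤ) + d * t)).card := by
      simp only [card_filter]
      exact sum_comm
    rw [h2] at h1
    exact_mod_cast h1
  have hPX : (P.card : ℝ) ≤ X := by
    have h1 := card_le_card hP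
    rw [Nat.card_Ioc] at h1
    have : P.card ≤ X := by omega
    exact_mod_cast this
  have hPne : P.Nonempty := by
    rw [← card_pos]
    have h1 : (0 : ℝ) < P.card := lt_of_lt_of_le (by positivity) hPc
    exact_mod_cast h1
  have hsum3 : ∑ p ∈ P, (((Icc 1 D).filter (fun d : ℕ => ∀ t ∈ T, ∃ q ∈ P,
        (q : ℤ) = (p : ℤ) + d * t)).card : ℝ) < ∑ _p ∈ P, (D : ℝ) ^ (1 - ε) :=
    sum_lt_sum_of_nonempty hPne hcon
  rw [sum_const, nsmul_eq_mul] at hsum3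
  have h4 : (P.card : ℝ) * (D : ℝ) ^ (1 - ε) ≤ X * (D : ℝ) ^ (1 - ε) :=
    mul_le_mul_of_nonneg_right hPX (by positivity)
  have h5 : (D : ℝ) ^ (1 - ε') * ((X : ℝ) / (D : ℝ) ^ ε') = X * (D : ℝ) ^ (1 - ε) := by
    have h6 : (D : ℝ) ^ (1 - ε') = (D : ℝ) ^ (1 - ε) * (D : ℝ) ^ ε' := by
      rw [← Real.rpow_add hD0, hε']
      congr 1
      ring
    have h7 : (D : ℝ) ^ ε' ≠ 0 := (Real.rpow_pos_of_pos hD0 _).ne'
    rw [h6]
    field_simp
  linarith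

end Pool.Agent.Helper51.UV
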