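import Pool.Agent.Helper51.UD.Worlds
import Pool.Agent.Helper51.UD.Eng

/-!
# The pseudorandomness conditions for most worlds, for weights with bounded moments

As `Helper51.UD.Worlds`, with a bound for the mean values of the products instead of a pointwise bound.
-/

set_option autoImplicit false

open Finset

namespace Pool.Agent.Helper51.UV

open Pool.Agent.Helper51.UD
open Pool.Agent.H602R3.DHJ (av av_const av_mono av_nonneg av_add av_sub av_mul av_sum av_equiv
  av_prod av_comm)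
open Pool.Agent.Y727.PSP
open Pool.Agent.Y46.PSP (abs_av_le av_tr av_update)

variable {r N : ℕ}

/-- a family of weights with the expected moments -/
structure MajM {Ω : Type} (β : Fin r → ℤ) (S : Finset Ω) (F : Ω → (Fin r → ZMod N) → ℝ)
    (M : ℕ) (η L : ℝ) : Prop where
  nonneg : ∀ K a, 0 ≤ F K a
  maj : ∀ (I : Type) [Fintype I], Fintype.card I ≤ M → ∀ a : I → (Fin r → ZMod N),
    Function.Injective (fun i => rho β (a i)) → |(∑ K ∈ S, ∏ i, F K (a i)) / S.card - 1| ≤ η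
  bound : ∀ (I : Type) [Fintype I], Fintype.card I ≤ M → ∀ a : I → (Fin r → ZMod N),
    ∑ K ∈ S, ∏ i, F K (a i) ≤ L * S.card

variable {Ω : Type} {S : Finset Ω} {M : ℕ} {F : Ω → (Fin r → ZMod N) → ℝ} {η L : ℝ}
  {β : Fin r → ℤ}

theorem lemBm [NeZero N] (h : MajM β S F M η L) (hL : 1 ≤ L) (hη : 0 ≤ η) (hX : S.Nonempty)
    {I Y : Type} [Fintype I] [AddCommGroup Y] [Fintype Y] (hI : Fintype.card I ≤ M)
    (f : I → (Y →+ (Fin r → ZMod N)))
    (hf : ∀ i j, i ≠ j → ∃ (τ : ZMod N →+ Y) (p q : Fin r → ℤ), Mv (f i) τ p ∧ Mv (f j) τ q ∧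
      ∑ l, β l * (p l - q l) ≠ 0) :
    |(∑ K ∈ S, av (fun y : Y => ∏ i, F K (f i y))) / S.card - 1| ≤
      η + (Fintype.card I : ℝ) ^ 2 * 9 ^ r * L / N := by
  classical
  have hX' : (0 : ℝ) < S.card := by exact_mod_cast hX.card_pos
  have hN : (0 : ℝ) < N := by exact_mod_cast Nat.pos_of_ne_zero (NeZero.ne N)
  have hY : (0 : ℝ) < Fintype.card Y := by exact_mod_cast Fintype.card_pos
  set P : Y → ℝ := fun y => (∑ K ∈ S, ∏ i, F K (f i y)) / S.card - 1 with hP
  have h1 : (∑ K ∈ S, av (fun y : Y => ∏ i, F K (f i y))) / S.card - 1 = av P := by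
    rw [hP, av_sub, av_const, ← av_sum]
    congr 1
    simp_rw [div_eq_inv_mul]
    rw [av_mul]
  have hgood : ∀ y, Function.Injective (fun i => rho β (f i y)) → |P y| ≤ η := by
    intro y hy
    exact h.maj I hI (fun i => f i y) hy
  have hbad : ∀ y, |P y| ≤ L := by
    intro y
    have h2 : 0 ≤ (∑ K ∈ S, ∏ i, F K (f i y)) / S.card :=
      div_nonneg (sum_nonneg fun K _ => prod_nonneg fun i _ => h.nonneg _ _) hX'.le
    have h3 : (∑ K ∈ S, ∏ i, F K (f i y)) / S.card ≤ L := by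
      rw [div_le_iff₀ hX']
      exact h.bound I hI (fun i => f i y)
    rw [abs_le]
    constructor <;> simp only [hP] <;> linarith
  rw [h1]
  refine (abs_av_le (f := P) (g := fun y => |P y|) fun _ => le_rfl).trans ?_
  have h4 : av (fun y => |P y|) ≤ av (fun y => η +
      if ¬ Function.Injective (fun i => rho β (f i y)) then L else 0) := by
    apply av_mono
    intro y
    by_cases hy : Function.Injective (fun i => rho β (f i y))
    · rw [if_neg (not_not_intro hy)]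
      have := hgood y hy
      linarith
    · rw [if_pos hy]
      have := hbad y
      linarith
  refine h4.trans ?_
  rw [av_add, av_const]
  have h5 : av (fun y : Y => if ¬ Function.Injective (fun i => rho β (f i y)) then L else 0) =
      ((univ.filter (fun y => ¬ Function.Injective (fun i => rho β (f i y)))).card : ℝ) * L /
        Fintype.card Y := by
    unfold av
    rw [← sum_filter, sum_const, nsmul_eq_mul]
  rw [h5]
  have h6 := card_badx β f hf
  have h7 : ((univ.filter (fun y => ¬ Function.Injective (fun i => rho β (f i y)))).card : ℝ) * L /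
        Fintype.card Y ≤ (Fintype.card I : ℝ) ^ 2 * 9 ^ r * L / N := by
    rw [div_le_div_iff₀ hY hN]
    nlinarith
  linarith

theorem lemCm [NeZero N] (h : MajM β S F M η L) (hL : 1 ≤ L) (hη : 0 ≤ η) (hX : S.Nonempty)
    {I Y : Type} [Fintype I] [AddCommGroup Y] [Fintype Y] (hI : 2 * Fintype.card I ≤ M)
    (f : I → (Y →+ (Fin r → ZMod N))) (hf : GoodSys β f) :
    ∑ K ∈ S, (av (fun y : Y => ∏ i, F K (f i y)) - 1) ^ 2 ≤
      (3 * η + 2 * (M : ℝ) ^ 2 * 9 ^ r * L / N) * S.card := by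
  classical
  have hX' : (0 : ℝ) < S.card := by exact_mod_cast hX.card_pos
  have hN : (0 : ℝ) < N := by exact_mod_cast Nat.pos_of_ne_zero (NeZero.ne N)
  have h1 := lemBm h hL hη hX (by omega) f hf.sep
  -- the family on `Y × Y`
  let g : I ⊕ I → Y × Y →+ (Fin r → ZMod N) :=
    Sum.elim (fun i => (f i).comp (AddMonoidHom.fst Y Y))
    (fun i => (f i).comp (AddMonoidHom.snd Y Y))
  have hl : ∀ i τ p, Mv (f i) τ p → Mv (g (Sum.inl i)) ((AddMonoidHom.inl Y Y).comp τ) p :=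
    fun i τ p hh => ⟨hh.small, fun h l => by
      show f i (τ h) l = _
      exact hh.eq h l⟩
  have hr : ∀ i τ p, Mv (f i) τ p → Mv (g (Sum.inr i)) ((AddMonoidHom.inr Y Y).comp τ) p :=
    fun i τ p hh => ⟨hh.small, fun h l => by
      show f i (τ h) l = _
      exact hh.eq h l⟩
  have hl0 : ∀ i (τ : ZMod N →+ Y), Mv (g (Sum.inr i)) ((AddMonoidHom.inl Y Y).comp τ) 0 :=
    fun i τ => ⟨fun l => by simp, fun h l => by
      show f i 0 l = _
      simp⟩
  have hr0 : ∀ i (τ : ZMod N →+ Y), Mv (g (Sum.inl i)) ((AddMonoidHom.inr Y Y).comp τ) 0 :=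
    fun i τ => ⟨fun l => by simp, fun h l => by
      show f i 0 l = _
      simp⟩
  have hg : ∀ i j, i ≠ j → ∃ (τ : ZMod N →+ Y × Y) (p q : Fin r → ℤ), Mv (g i) τ p ∧
      Mv (g j) τ q ∧ ∑ l, β l * (p l - q l) ≠ 0 := by
    rintro (i | i) (j | j) hij
    · obtain ⟨τ, p, q, h1, h2, h3⟩ := hf.sep i j (fun h => hij (by rw [h]))
      exact ⟨_, p, q, hl _ _ _ h1, hl _ _ _ h2, h3⟩
    · obtain ⟨τ, p, h1, h3⟩ := hf.sep0 i
      exact ⟨_, p, 0, hl _ _ _ h1, hl0 _ _, by simpa using h3⟩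
    · obtain ⟨τ, p, h1, h3⟩ := hf.sep0 i
      exact ⟨_, p, 0, hr _ _ _ h1, hr0 _ _, by simpa using h3⟩
    · obtain ⟨τ, p, q, h1, h2, h3⟩ := hf.sep i j (fun h => hij (by rw [h]))
      exact ⟨_, p, q, hr _ _ _ h1, hr _ _ _ h2, h3⟩
  have h2 := lemBm h hL hη hX (by rw [Fintype.card_sum]; omega) g hg
  have h3 : ∀ K, av (fun y : Y × Y => ∏ i, F K (g i y)) =
      (av (fun y : Y => ∏ i, F K (f i y))) ^ 2 := by
    intro K
    rw [av_prod]
    have h4 : ∀ x y : Y, ∏ i, F K (g i (x, y)) =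
        (∏ i, F K (f i x)) * ∏ i, F K (f i y) := by
      intro x y
      rw [Fintype.prod_sum_type]
      rfl
    simp_rw [h4]
    simp_rw [av_mul]
    have h5 : av (fun x : Y => (∏ i, F K (f i x)) *
        av (fun y : Y => ∏ i, F K (f i y))) =
        av (fun x : Y => av (fun y : Y => ∏ i, F K (f i y)) *
          ∏ i, F K (f i x)) := by
      congr 1
      funext x
      rw [mul_comm]
    rw [h5, av_mul, pow_two]
  simp_rw [h3] at h2
  rw [Fintype.card_sum] at h2
  set G : Ω → ℝ := fun K => av (fun y : Y => ∏ i, F K (f i y)) with hG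
  change |(∑ K ∈ S, G K) / S.card - 1| ≤ _ at h1
  change |(∑ K ∈ S, G K ^ 2) / S.card - 1| ≤ _ at h2
  change ∑ K ∈ S, (G K - 1) ^ 2 ≤ _
  have h6 : ∑ K ∈ S, (G K - 1) ^ 2 =
      (((∑ K ∈ S, G K ^ 2) / S.card - 1) - 2 * ((∑ K ∈ S, G K) / S.card - 1)) * S.card := by
    have h7 : ∑ K ∈ S, (G K - 1) ^ 2 =
        ∑ K ∈ S, G K ^ 2 - 2 * ∑ K ∈ S, G K + S.card := by
      simp_rw [sub_sq]
      rw [sum_add_distrib, sum_sub_distrib, mul_sum]
      simp only [mul_one, one_pow, sum_const, nsmul_eq_mul]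
    rw [h7]
    field_simp
    ring
  rw [h6]
  apply mul_le_mul_of_nonneg_right _ hX'.le
  have h8 := (abs_le.1 h1).1
  have h9 := (abs_le.1 h2).2
  have hm : (Fintype.card I : ℝ) * 2 ≤ M := by
    have : Fintype.card I * 2 ≤ M := by omega
    exact_mod_cast this
  have hm0 : (0 : ℝ) ≤ Fintype.card I := by positivity
  obtain ⟨W, hW⟩ : ∃ W : ℝ, W = 9 ^ r * L / N := ⟨_, rfl⟩
  have hLN : 0 ≤ W := by rw [hW]; positivity
  have h10 : (Fintype.card I : ℝ) ^ 2 * 9 ^ r * L / N ≤ (M : ℝ) ^ 2 / 4 * W := by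
    have : (Fintype.card I : ℝ) ^ 2 * 9 ^ r * L / N = (Fintype.card I : ℝ) ^ 2 * W := by
      rw [hW]; ring
    rw [this]
    apply mul_le_mul_of_nonneg_right _ hLN
    nlinarith
  have h11 : ((Fintype.card I + Fintype.card I : ℕ) : ℝ) ^ 2 * 9 ^ r * L / N ≤ (M : ℝ) ^ 2 * W := by
    have : ((Fintype.card I + Fintype.card I : ℕ) : ℝ) ^ 2 * 9 ^ r * L / N =
      ((Fintype.card I + Fintype.card I : ℕ) : ℝ) ^ 2 * W := by
      rw [hW]; ring
    rw [this]
    apply mul_le_mul_of_nonneg_right _ hLN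
    push_cast
    nlinarith
  have h12 : 2 * (M : ℝ) ^ 2 * 9 ^ r * L / N = 2 * ((M : ℝ) ^ 2 * W) := by rw [hW]; ring
  rw [h12]
  have h13 : 0 ≤ (M : ℝ) ^ 2 * W := by positivity
  linarith

end Pool.Agent.Helper51.UV
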